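import Pool.Agent.H851.K3.Num

/-!
# Nondegeneracy on a rational subspace
-/

set_option autoImplicit false

namespace Pool.Agent.H851.K3

open Matrix Module

section

variable {k : Type} [Field k] [CharZero k] {n : Type} [Fintype n] [DecidableEq n]

/-- a form over `ℚ` which is nondegenerate on a subspace stays so over a larger field -/
theorem rat_nondeg (q₀ : Matrix n n ℚ) (N : Submodule ℚ (n → ℚ))
    (hN : ∀ x ∈ N, (∀ y ∈ N, x ⬝ᵥ q₀ *ᵥ y = 0) → x = 0) (x : n → k)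
    (hx : x ∈ Submodule.span k ((fun y : n → ℚ => fun i => algebraMap ℚ k (y i)) '' N))
    (hxy : ∀ y ∈ N, x ⬝ᵥ (q₀.map (algebraMap ℚ k)) *ᵥ (fun i => algebraMap ℚ k (y i)) = 0) :
    x = 0 := by
  classical
  let b := Module.finBasis ℚ N
  let G : Matrix (Fin (finrank ℚ N)) (Fin (finrank ℚ N)) ℚ :=
    Matrix.of fun i j => (b i : n → ℚ) ⬝ᵥ q₀ *ᵥ (b j : n → ℚ)
  have hG : G.det ≠ 0 := by
    intro h0
    obtain ⟨c, hc, hc'⟩ := Matrix.exists_vecMul_eq_zero_iff.2 h0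
    have h1 : ∀ j, (∑ i, c i • (b i : n → ℚ)) ⬝ᵥ q₀ *ᵥ (b j : n → ℚ) = 0 := by
      intro j
      have h2 : ∑ i, c i * G i j = 0 := congrFun hc' j
      rw [sum_dotProduct, ← h2]
      refine Finset.sum_congr rfl fun i _ => ?_
      rw [smul_dotProduct, smul_eq_mul]
      rfl
    have hmem : (∑ i, c i • (b i : n → ℚ)) ∈ N := N.sum_mem fun i _ => N.smul_mem _ (b i).2
    have h3 : (∑ i, c i • (b i : n → ℚ)) = 0 := by
      refine hN _ hmem fun y hy => ?_
      have h4 : y = ∑ j, b.repr ⟨y, hy⟩ j • (b j : n → ℚ) := by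
        have h5 := congrArg Subtype.val (b.sum_repr ⟨y, hy⟩)
        rw [Submodule.coe_sum] at h5
        exact h5.symm
      rw [h4, Matrix.mulVec_sum, dotProduct_sum]
      refine Finset.sum_eq_zero fun j _ => ?_
      rw [Matrix.mulVec_smul, dotProduct_smul, h1, smul_zero]
    apply hc
    have h5 : ∑ i, c i • b i = 0 := by
      apply Subtype.ext
      rw [Submodule.coe_sum]
      exact h3
    exact funext fun i => (linearIndependent_iff'.1 b.linearIndependent) Finset.univ c h5 i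
      (Finset.mem_univ i)
  set e : (n → ℚ) → (n → k) := fun y => fun i => algebraMap ℚ k (y i) with he
  have hex : ∃ c : Fin (finrank ℚ N) → k, x = ∑ i, c i • e (b i) := by
    refine Submodule.span_induction (p := fun x _ => ∃ c : Fin (finrank ℚ N) → k,
      x = ∑ i, c i • e (b i)) ?_ ?_ ?_ ?_ hx
    · rintro _ ⟨y, hy, rfl⟩
      refine ⟨fun i => algebraMap ℚ k (b.repr ⟨y, hy⟩ i), ?_⟩
      have h5 := congrArg Subtype.val (b.sum_repr ⟨y, hy⟩)
      rw [Submodule.coe_sum] at h5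
      funext j
      have h6 : ∑ i, (((b.repr ⟨y, hy⟩ i • b i : N) : n → ℚ)) j = y j := by
        rw [← Finset.sum_apply]
        exact congrFun h5 j
      simp only [he]
      rw [Finset.sum_apply, ← h6, map_sum]
      refine Finset.sum_congr rfl fun i _ => ?_
      simp
    · exact ⟨0, by simp⟩
    · rintro x y _ _ ⟨c, rfl⟩ ⟨d, rfl⟩
      exact ⟨c + d, by simp [add_smul, Finset.sum_add_distrib]⟩
    · rintro a x _ ⟨c, rfl⟩
      exact ⟨a • c, by simp [Finset.smul_sum, smul_smul]⟩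
  obtain ⟨c, rfl⟩ := hex
  have hee : ∀ y z : n → ℚ, e y ⬝ᵥ (q₀.map (algebraMap ℚ k)) *ᵥ e z =
      algebraMap ℚ k (y ⬝ᵥ q₀ *ᵥ z) := by
    intro y z
    simp only [he, dotProduct, Matrix.mulVec, map_sum, map_mul, Matrix.map_apply]
  have hc0 : c ᵥ* (G.map (algebraMap ℚ k)) = 0 := by
    funext j
    have h1 := hxy _ (b j).2
    rw [sum_dotProduct] at h1
    rw [Matrix.vecMul, dotProduct, Pi.zero_apply, ← h1]
    refine Finset.sum_congr rfl fun i _ => ?_
    rw [smul_dotProduct, smul_eq_mul, hee]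
    rfl
  have hGk : (G.map (algebraMap ℚ k)).det ≠ 0 := by
    rw [← RingHom.mapMatrix_apply, ← RingHom.map_det]
    exact (map_ne_zero _).2 hG
  have hc : c = 0 := by
    by_contra hne
    exact hGk (Matrix.exists_vecMul_eq_zero_iff.1 ⟨c, hne, hc0⟩)
  rw [hc]
  simp

end

section

open Polynomial NumberField IsDedekindDomain
open Pool.Agent.NH56.HY (GK)

theorem orth_eq {ℓ : ℕ} [Fact ℓ.Prime] {n : Type} [Fintype n] [DecidableEq n] (q : Matrix n n ℚ_[ℓ])
    (W : Submodule ℚ_[ℓ] (n → ℚ_[ℓ])) : orth q W = (Matrix.toBilin' q).orthogonal W := by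
  ext x
  rw [LinearMap.BilinForm.mem_orthogonal_iff]
  constructor
  · intro h y hy
    rw [Matrix.toBilin'_apply']
    exact h y hy
  · intro h y hy
    have := h y hy
    rwa [Matrix.toBilin'_apply'] at this

variable {ℓ : ℕ} [hℓ : Fact ℓ.Prime] {n : Type}
    [Fintype n] [DecidableEq n] {q : Matrix n n ℚ_[ℓ]} {S : Finset ℕ} {χ : GK ℚ →* ℚ_[ℓ]}
    {Pol : HeightOneSpectrum (𝓞 ℚ) → ℤ[X]} {ρ : GK ℚ →* Matrix n n ℚ_[ℓ]}

/-- a stable subspace without Tate classes is an orthogonal direct summand -/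
theorem summand (h : IsK3Type q S χ Pol ρ) (W : Submodule ℚ_[ℓ] (n → ℚ_[ℓ])) (hW : Stable ρ W)
    (hT : ∀ x ∈ W, IsTate χ ρ x → x = 0) : IsCompl W (orth q W) := by
  rw [orth_eq]
  refine (LinearMap.BilinForm.isCompl_orthogonal_iff_disjoint (refl h.symm)).2
    (disjoint_iff.2 ?_)
  by_contra hne
  have hWo := orth_stable h.similitude hW
  obtain ⟨x, hx, hx0, hxT⟩ := iso_tate h (W ⊓ (Matrix.toBilin' q).orthogonal W)
    (fun g x hx => ⟨hW g x hx.1, hWo g x hx.2⟩) (fun x hx y hy => by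
      have := (LinearMap.BilinForm.mem_orthogonal_iff.1 hy.2) x hx.1
      rwa [Matrix.toBilin'_apply'] at this) hne
  exact hx0 (hT x hx.1 hxT)

theorem summand_ss (h : IsK3Type q S χ Pol ρ) (W : Submodule ℚ_[ℓ] (n → ℚ_[ℓ])) (hW : Stable ρ W)
    (hT : ∀ x ∈ W, IsTate χ ρ x → x = 0) (X : Submodule ℚ_[ℓ] (n → ℚ_[ℓ])) (hXW : X ≤ W)
    (hX : Stable ρ X) : Stable ρ (W ⊓ orth q X) ∧ X ⊓ (W ⊓ orth q X) = ⊥ ∧ X ⊔ (W ⊓ orth q X) = W := by
  have hc := summand h X hX fun x hx => hT x (hXW hx)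
  refine ⟨?_, ?_, ?_⟩
  · rw [orth_eq]
    have := orth_stable h.similitude hX
    exact fun g x hx => ⟨hW g x hx.1, this g x hx.2⟩
  · rw [eq_bot_iff, ← hc.inf_eq_bot]
    exact fun x hx => ⟨hx.1, hx.2.2⟩
  · apply le_antisymm (sup_le hXW inf_le_left)
    intro w hw
    have hw' : w ∈ X ⊔ orth q X := by rw [hc.sup_eq_top]; trivial
    obtain ⟨a, ha, c, hc', hac⟩ := Submodule.mem_sup.1 hw'
    refine Submodule.mem_sup.2 ⟨a, ha, c, ⟨?_, hc'⟩, hac⟩
    have : c = w - a := by rw [← hac]; abel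
    rw [this]
    exact W.sub_mem hw (hXW ha)

end

end Pool.Agent.H851.K3
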