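import Pool.Graph.R_pool_sql_team_seeded_3dad9d7b.NH56.HY.Def

/-!
# Galois representations of K3 type: definitions
-/

set_option autoImplicit false

namespace Pool.Agent.H851.K3

open Matrix Polynomial NumberField IsDedekindDomain
open Pool.Agent.NH56.HY (GK IsFrobenius LiesAbove newton)

/-- An `ℓ`-adic Galois representation `ρ` of K3 type of dimension `b`, over a number field `K`, with the
invariant form `q`. For example the second cohomology `H^2(X, ℚ_ℓ)` of a smooth projective surface (or
variety) over `K` with `h^{2,0} = 1` and `b` the second Betti number, or its primitive or its transcendental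
part, `H^4(X, ℚ_ℓ(1))` for a cubic fourfold, or the realization of a motive with the Hodge numbers
`(1, b - 2, 1)`. `χ` is the inverse of the cyclotomic character, `S` contains the residue characteristics of
the places of bad reduction (and finitely many others), and `Pol v` is the characteristic polynomial of the
geometric Frobenius element at `v`. Only places of degree one are used. -/
structure IsK3Type {K : Type} [Field K] [NumberField K] {ℓ : ℕ} [Fact ℓ.Prime] {n : Type}
    [Fintype n] [DecidableEq n] (q : Matrix n n ℚ_[ℓ]) (S : Finset ℕ) (χ : GK K →* ℚ_[ℓ])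
    (Pol : HeightOneSpectrum (𝓞 K) → ℤ[X]) (ρ : GK K →* Matrix n n ℚ_[ℓ]) : Prop where
  continuous : Continuous ρ ∧ Continuous χ
  /-- the form `q` is symmetric and nondegenerate -/
  symm : qᵀ = q
  nondeg : q.det ≠ 0
  /-- the form `q` takes values in `ℚ_ℓ(-2)` -/
  similitude : ∀ g, (ρ g)ᵀ * q * ρ g = χ g ^ 2 • q
  /-- Grothendieck and Deligne: characteristic polynomials of Frobenius elements, and weights -/
  frobenius : ∀ (p : ℕ) [Fact p.Prime], p ∉ S → ∀ v, Ideal.absNorm v.asIdeal = p →
    ∀ σ : GK K, IsFrobenius v σ → χ σ⁻¹ = p ∧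
      (ρ σ⁻¹).charpoly = (Pol v).map (Int.castRingHom ℚ_[ℓ])
  weil : ∀ (p : ℕ) [Fact p.Prime], p ∉ S → ∀ v, Ideal.absNorm v.asIdeal = p →
    (Pol v).Monic ∧ ∀ z : ℂ, aeval z (Pol v) = 0 → ‖z‖ ^ 2 = (p : ℝ) ^ 2
  /-- Mazur, Berthelot and Ogus: the Newton polygon lies above the Hodge polygon, which has the slopes
  `0, 2` and (`b - 2` times) `1` -/
  mazur : ∀ (p : ℕ) [Fact p.Prime], p ∉ S → ∀ v, Ideal.absNorm v.asIdeal = p →
    LiesAbove (newton p (Pol v)) (0 ::ₘ 2 ::ₘ Multiset.replicate (Fintype.card n - 2) 1)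

/-- `W` is stable under the Galois group -/
def Stable {Γ k n : Type} [Field k] [Group Γ] [Fintype n] [DecidableEq n] (ρ : Γ →* Matrix n n k)
    (W : Submodule k (n → k)) : Prop :=
  ∀ g, ∀ x ∈ W, ρ g *ᵥ x ∈ W

/-- every stable subspace has a stable complement -/
def Semisimple {Γ k n : Type} [Field k] [Group Γ] [Fintype n] [DecidableEq n]
    (ρ : Γ →* Matrix n n k) : Prop :=
  ∀ W, Stable ρ W → ∃ W', Stable ρ W' ∧ IsCompl W W'

/-- `x` is a (potential) Tate class: an open subgroup of the Galois group acts on `x` by the character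
`χ`, that is, it fixes `x` after a Tate twist -/
def IsTate {K : Type} [Field K] {ℓ : ℕ} [Fact ℓ.Prime] {n : Type} [Fintype n] [DecidableEq n]
    (χ : GK K →* ℚ_[ℓ]) (ρ : GK K →* Matrix n n ℚ_[ℓ]) (x : n → ℚ_[ℓ]) : Prop :=
  ∃ U : Subgroup (GK K), IsOpen (U : Set (GK K)) ∧ ∀ g ∈ U, ρ g *ᵥ x = χ g • x

/-- the subspace of the (potential) Tate classes -/
def tate {K : Type} [Field K] {ℓ : ℕ} [Fact ℓ.Prime] {n : Type} [Fintype n] [DecidableEq n]
    (χ : GK K →* ℚ_[ℓ]) (ρ : GK K →* Matrix n n ℚ_[ℓ]) : Submodule ℚ_[ℓ] (n → ℚ_[ℓ]) where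
  carrier := {x | IsTate χ ρ x}
  zero_mem' := ⟨⊤, isOpen_univ, fun g _ => by rw [Matrix.mulVec_zero, smul_zero]⟩
  add_mem' := by
    rintro x y ⟨U, hU, hx⟩ ⟨V, hV, hy⟩
    refine ⟨U ⊓ V, hU.inter hV, fun g hg => ?_⟩
    rw [Matrix.mulVec_add, hx g hg.1, hy g hg.2, smul_add]
  smul_mem' := by
    rintro c x ⟨U, hU, hx⟩
    refine ⟨U, hU, fun g hg => ?_⟩
    rw [Matrix.mulVec_smul, hx g hg, smul_comm]

/-- the orthogonal complement of `W` for the form `q` -/
def orth {k n : Type} [Field k] [Fintype n] (q : Matrix n n k) (W : Submodule k (n → k)) :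
    Submodule k (n → k) where
  carrier := {x | ∀ y ∈ W, y ⬝ᵥ q *ᵥ x = 0}
  zero_mem' := fun y _ => by rw [Matrix.mulVec_zero, dotProduct_zero]
  add_mem' := fun {a b} ha hb y hy => by
    rw [Matrix.mulVec_add, dotProduct_add, ha y hy, hb y hy, add_zero]
  smul_mem' := fun c {a} ha y hy => by
    rw [Matrix.mulVec_smul, dotProduct_smul, ha y hy, smul_zero]

open Classical in
/-- the number of the zeros `p ζ` of `P` with a root of unity `ζ`, with multiplicities; for a Frobenius
polynomial this is the number which the Tate conjecture predicts for the rank of the space of Tate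
classes of the reduction -/
noncomputable def rootsOfUnity (p : ℕ) (P : ℤ[X]) : ℕ :=
  ((P.map (Int.castRingHom ℂ)).roots.filter fun z => ∃ k : ℕ, 0 < k ∧ z ^ k = (p : ℂ) ^ k).card

end Pool.Agent.H851.K3
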