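import Pool.Agent.H851.K3.Iso

/-!
# Semisimplicity of representations of K3 type over `ℚ`
-/

set_option autoImplicit false

namespace Pool.Agent.H851.K3

open Matrix Polynomial Filter Topology NumberField IsDedekindDomain Module
open Pool.Agent.NH56.HY (GK IsFrobenius LiesAbove newton tw tw_apply chi_ne)

section maschke

variable {k Γ n : Type} [Field k] [Group Γ] [Fintype n] [DecidableEq n]

/-- Maschke's theorem for a representation on which a subgroup of finite index acts trivially -/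
theorem maschke [CharZero k] (r : Γ →* Matrix n n k) (U : Subgroup Γ) [Finite (Γ ⧸ U)]
    (E : Submodule k (n → k)) (hE : Stable r E) (hU : ∀ u ∈ U, ∀ x ∈ E, r u *ᵥ x = x)
    (W : Submodule k (n → k)) (hWE : W ≤ E) (hW : Stable r W) :
    ∃ W', W' ≤ E ∧ Stable r W' ∧ W ⊓ W' = ⊥ ∧ W ⊔ W' = E := by
  classical
  have := Fintype.ofFinite (Γ ⧸ U)
  obtain ⟨P₀, hP₀⟩ := LinearMap.exists_leftInverse_of_injective W.subtype W.ker_subtype
  have hP1 : ∀ x (hx : x ∈ W), (P₀ x : n → k) = x := by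
    intro x hx
    have h1 := LinearMap.congr_fun hP₀ ⟨x, hx⟩
    exact congrArg Subtype.val h1
  let F : Γ → (n → k) →ₗ[k] (n → k) := fun g =>
    (Matrix.toLin' (r g)).comp ((W.subtype.comp P₀).comp (Matrix.toLin' (r g⁻¹)))
  have hF : ∀ g x, F g x = r g *ᵥ (P₀ (r g⁻¹ *ᵥ x) : n → k) := fun g x => rfl
  have hinv : ∀ g x, r g *ᵥ (r g⁻¹ *ᵥ x) = x := by
    intro g x
    rw [Matrix.mulVec_mulVec, ← map_mul, mul_inv_cancel, map_one, Matrix.one_mulVec]
  have hFu : ∀ g, ∀ u ∈ U, ∀ x ∈ E, F (g * u) x = F g x := by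
    intro g u hu x hx
    rw [hF, hF, _root_.mul_inv_rev, map_mul, map_mul, ← Matrix.mulVec_mulVec,
      ← Matrix.mulVec_mulVec, hU _ (U.inv_mem hu) _ (hE _ _ hx), hU _ hu _ (hWE (Subtype.mem _))]
  have hFout : ∀ g : Γ, ∀ x ∈ E, F (Quotient.out (g : Γ ⧸ U)) x = F g x := by
    intro g x hx
    obtain ⟨u, hu⟩ := QuotientGroup.mk_out_eq_mul U g
    rw [hu, hFu g u u.2 x hx]
  let S : (n → k) →ₗ[k] (n → k) := ∑ c : Γ ⧸ U, F c.out
  have hS : ∀ x, S x = ∑ c : Γ ⧸ U, F c.out x := fun x => by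
    simp only [S, LinearMap.sum_apply]
  have hSeq : ∀ h, ∀ x ∈ E, S (r h *ᵥ x) = r h *ᵥ S x := by
    intro h x hx
    rw [hS, hS, Matrix.mulVec_sum]
    rw [← Equiv.sum_comp (MulAction.toPerm h) fun c : Γ ⧸ U => F c.out (r h *ᵥ x)]
    refine Finset.sum_congr rfl fun c _ => ?_
    have h1 : (MulAction.toPerm h c : Γ ⧸ U) = ((h * c.out : Γ) : Γ ⧸ U) := by
      conv_lhs => rw [← QuotientGroup.out_eq' c]
      rfl
    have h2 : r h⁻¹ *ᵥ (r h *ᵥ x) = x := by
      have := hinv h⁻¹ x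
      rwa [inv_inv] at this
    rw [h1, hFout _ _ (hE _ _ hx), hF, hF, _root_.mul_inv_rev, map_mul, map_mul,
      ← Matrix.mulVec_mulVec, ← Matrix.mulVec_mulVec, h2]
  have hSW : ∀ x, S x ∈ W := by
    intro x
    rw [hS]
    exact W.sum_mem fun c _ => hW _ _ (Subtype.mem _)
  have hS1 : ∀ x ∈ W, S x = (Fintype.card (Γ ⧸ U) : k) • x := by
    intro x hx
    rw [hS]
    have h1 : ∀ c : Γ ⧸ U, F c.out x = x := by
      intro c
      rw [hF, hP1 _ (hW _ _ hx), hinv]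
    rw [Finset.sum_congr rfl fun c _ => h1 c, Finset.sum_const, Finset.card_univ,
      Nat.cast_smul_eq_nsmul]
  have hc : (Fintype.card (Γ ⧸ U) : k) ≠ 0 := by
    rw [Nat.cast_ne_zero]
    have : Nonempty (Γ ⧸ U) := ⟨((1 : Γ) : Γ ⧸ U)⟩
    exact Fintype.card_ne_zero
  refine ⟨E ⊓ LinearMap.ker S, inf_le_left, ?_, ?_, ?_⟩
  · rintro g x ⟨hx, hx'⟩
    refine ⟨hE g x hx, ?_⟩
    rw [SetLike.mem_coe, LinearMap.mem_ker] at hx' ⊢
    rw [hSeq g x hx, hx', Matrix.mulVec_zero]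
  · rw [eq_bot_iff]
    rintro x ⟨hx, -, hx'⟩
    rw [SetLike.mem_coe, LinearMap.mem_ker, hS1 x hx] at hx'
    exact (smul_eq_zero.1 hx').resolve_left hc
  · apply le_antisymm (sup_le hWE inf_le_left)
    intro x hx
    rw [Submodule.mem_sup]
    refine ⟨(Fintype.card (Γ ⧸ U) : k)⁻¹ • S x, W.smul_mem _ (hSW x),
      x - (Fintype.card (Γ ⧸ U) : k)⁻¹ • S x, ⟨E.sub_mem hx (E.smul_mem _ (hWE (hSW x))), ?_⟩, by abel⟩
    rw [SetLike.mem_coe, LinearMap.mem_ker, map_sub, map_smul, hS1 _ (hSW x), smul_smul,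
      inv_mul_cancel₀ hc, one_smul, sub_self]

end maschke

section tate

variable {K : Type} [Field K] {ℓ : ℕ} [Fact ℓ.Prime] {n : Type} [Fintype n] [DecidableEq n]
    (χ : GK K →* ℚ_[ℓ]) (ρ : GK K →* Matrix n n ℚ_[ℓ])

theorem mem_tate {x : n → ℚ_[ℓ]} : x ∈ tate χ ρ ↔ IsTate χ ρ x := Iff.rfl

theorem tate_stable : Stable ρ (tate χ ρ) := by
  rintro g x ⟨U, hU, hx⟩
  refine ⟨U.comap (MulAut.conj g⁻¹).toMonoidHom, ?_, ?_⟩
  · have h1 : ((U.comap (MulAut.conj g⁻¹).toMonoidHom : Subgroup (GK K)) : Set (GK K)) =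
        (fun h => g⁻¹ * h * g) ⁻¹' (U : Set (GK K)) := by
      ext h
      simp
    rw [h1]
    exact hU.preimage (by fun_prop)
  · intro h hh
    have h1 : g⁻¹ * h * g ∈ U := by simpa [MulAut.conj_apply] using hh
    have h2 := hx _ h1
    have h3 : h * g = g * (g⁻¹ * h * g) := by group
    have h4 : χ (g⁻¹ * h * g) = χ h := by
      rw [map_mul, map_mul, mul_comm (χ g⁻¹), mul_assoc, ← map_mul, inv_mul_cancel, map_one,
        mul_one]
    rw [Matrix.mulVec_mulVec, ← map_mul, h3, map_mul, ← Matrix.mulVec_mulVec, h2,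
      Matrix.mulVec_smul, h4]

/-- one open subgroup for all Tate classes -/
theorem tate_open : ∃ U : Subgroup (GK K), IsOpen (U : Set (GK K)) ∧
    ∀ g ∈ U, ∀ x ∈ tate χ ρ, ρ g *ᵥ x = χ g • x := by
  let b := Module.finBasis ℚ_[ℓ] (tate χ ρ)
  have h1 : ∀ i, ∃ U : Subgroup (GK K), IsOpen (U : Set (GK K)) ∧
      ∀ g ∈ U, ρ g *ᵥ (b i : n → ℚ_[ℓ]) = χ g • (b i : n → ℚ_[ℓ]) := fun i => (b i).2
  choose U hU hU' using h1
  refine ⟨⨅ i, U i, ?_, ?_⟩
  · rw [Subgroup.coe_iInf]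
    exact isOpen_iInter_of_finite hU
  · intro g hg x hx
    have hg' : ∀ i, g ∈ U i := fun i => (Subgroup.mem_iInf.1 hg) i
    have h2 : x = ∑ i, b.repr ⟨x, hx⟩ i • (b i : n → ℚ_[ℓ]) := by
      have h3 := congrArg Subtype.val (b.sum_repr ⟨x, hx⟩)
      rw [Submodule.coe_sum] at h3
      exact h3.symm
    rw [h2, Matrix.mulVec_sum, Finset.smul_sum]
    refine Finset.sum_congr rfl fun i _ => ?_
    rw [Matrix.mulVec_smul, hU' i g (hg' i), smul_comm]

end tate

section form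

variable {Γ : Type} [Group Γ] {ℓ : ℕ} [Fact ℓ.Prime] {n : Type}
    [Fintype n] [DecidableEq n] {q : Matrix n n ℚ_[ℓ]} {χ : Γ →* ℚ_[ℓ]}
    {ρ : Γ →* Matrix n n ℚ_[ℓ]}

theorem inv_mulVec (g : Γ) (x : n → ℚ_[ℓ]) : ρ g *ᵥ (ρ g⁻¹ *ᵥ x) = x := by
  rw [Matrix.mulVec_mulVec, ← map_mul, mul_inv_cancel, map_one, Matrix.one_mulVec]

theorem form_inv (hq : ∀ g, (ρ g)ᵀ * q * ρ g = χ g ^ 2 • q) (g : Γ) (x y : n → ℚ_[ℓ]) :
    (ρ g *ᵥ x) ⬝ᵥ q *ᵥ (ρ g *ᵥ y) = χ g ^ 2 * (x ⬝ᵥ q *ᵥ y) := by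
  have h1 := congrArg (fun M => x ⬝ᵥ M *ᵥ y) (hq g)
  simp only [Matrix.smul_mulVec, dotProduct_smul, smul_eq_mul] at h1
  rw [← h1, ← Matrix.mulVec_mulVec, ← Matrix.mulVec_mulVec, Matrix.dotProduct_mulVec x (ρ g)ᵀ,
    Matrix.vecMul_transpose]

/-- the orthogonal complement of a stable subspace is stable -/
theorem orth_stable (hq : ∀ g, (ρ g)ᵀ * q * ρ g = χ g ^ 2 • q) {W : Submodule ℚ_[ℓ] (n → ℚ_[ℓ])}
    (hW : Stable ρ W) : Stable ρ ((Matrix.toBilin' q).orthogonal W) := by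
  intro g x hx
  rw [LinearMap.BilinForm.mem_orthogonal_iff] at hx ⊢
  intro y hy
  have h1 := hx _ (hW g⁻¹ y hy)
  rw [Matrix.toBilin'_apply'] at h1 ⊢
  have h2 := form_inv hq g (ρ g⁻¹ *ᵥ y) x
  rw [h1, mul_zero, inv_mulVec] at h2
  exact h2

theorem refl (hs : qᵀ = q) : (Matrix.toBilin' q).IsRefl := by
  intro x y h
  rw [Matrix.toBilin'_apply'] at h ⊢
  rw [dotProduct_comm, ← Matrix.vecMul_transpose, hs, ← Matrix.dotProduct_mulVec]
  exact h

end form

section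

variable {ℓ : ℕ} [hℓ : Fact ℓ.Prime] {n : Type}
    [Fintype n] [DecidableEq n] {q : Matrix n n ℚ_[ℓ]} {S : Finset ℕ} {χ : GK ℚ →* ℚ_[ℓ]}
    {Pol : HeightOneSpectrum (𝓞 ℚ) → ℤ[X]} {ρ : GK ℚ →* Matrix n n ℚ_[ℓ]}

/-- a nonzero stable isotropic subspace contains a Tate class -/
theorem iso_tate (h : IsK3Type q S χ Pol ρ) (W : Submodule ℚ_[ℓ] (n → ℚ_[ℓ])) (hW : Stable ρ W)
    (hiso : ∀ x ∈ W, ∀ y ∈ W, x ⬝ᵥ q *ᵥ y = 0) (hne : W ≠ ⊥) : ∃ x ∈ W, x ≠ 0 ∧ IsTate χ ρ x := by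
  classical
  let b := Module.finBasis ℚ_[ℓ] W
  let B : Matrix n (Fin (finrank ℚ_[ℓ] W)) ℚ_[ℓ] := Matrix.of fun i j => (b j : n → ℚ_[ℓ]) i
  have hB : ∀ v, B *ᵥ v = ∑ j, v j • (b j : n → ℚ_[ℓ]) := by
    intro v
    ext i
    simp [B, Matrix.mulVec, dotProduct, mul_comm]
  have hBW : ∀ v, B *ᵥ v ∈ W := by
    intro v
    rw [hB]
    exact W.sum_mem fun j _ => W.smul_mem _ (b j).2
  have hBinj : Function.Injective (Matrix.toLin' B) := by
    intro v w hvw
    rw [Matrix.toLin'_apply, Matrix.toLin'_apply, hB, hB] at hvw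
    have h1 : ∑ j, v j • b j = ∑ j, w j • b j := by
      apply Subtype.ext
      rw [Submodule.coe_sum, Submodule.coe_sum]
      exact hvw
    have h2 := congrArg b.repr h1
    rw [← b.equivFun_symm_apply, ← b.equivFun_symm_apply] at h1
    exact b.equivFun.symm.injective h1
  obtain ⟨C₀, hC₀⟩ := LinearMap.exists_leftInverse_of_injective (Matrix.toLin' B)
    (LinearMap.ker_eq_bot.2 hBinj)
  set C := LinearMap.toMatrix' C₀ with hC
  have hCB : C * B = 1 := by
    have h1 := congrArg LinearMap.toMatrix' hC₀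
    rw [LinearMap.toMatrix'_comp, LinearMap.toMatrix'_toLin', LinearMap.toMatrix'_id] at h1
    exact h1
  have hrange : ∀ x ∈ W, ∃ v, B *ᵥ v = x := by
    intro x hx
    refine ⟨b.equivFun ⟨x, hx⟩, ?_⟩
    rw [hB]
    have h3 := congrArg Subtype.val (b.sum_repr ⟨x, hx⟩)
    rw [Submodule.coe_sum] at h3
    exact h3
  have hBC : ∀ x ∈ W, B *ᵥ (C *ᵥ x) = x := by
    intro x hx
    obtain ⟨v, rfl⟩ := hrange x hx
    have h1 : C *ᵥ (B *ᵥ v) = v := by rw [Matrix.mulVec_mulVec, hCB, Matrix.one_mulVec]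
    rw [h1]
  have hst : ∀ g, ρ g * B = B * (C * ρ g * B) := by
    intro g
    apply Matrix.toLin'.injective
    apply LinearMap.ext
    intro v
    rw [Matrix.toLin'_apply, Matrix.toLin'_apply, ← Matrix.mulVec_mulVec, ← Matrix.mulVec_mulVec,
      ← Matrix.mulVec_mulVec, ← Matrix.mulVec_mulVec, hBC _ (hW g _ (hBW v))]
  let A : GK ℚ →* Matrix (Fin (finrank ℚ_[ℓ] W)) (Fin (finrank ℚ_[ℓ] W)) ℚ_[ℓ] :=
    { toFun := fun g => C * ρ g * B
      map_one' := by rw [map_one, Matrix.mul_one, hCB]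
      map_mul' := by
        intro g g'
        rw [map_mul, Matrix.mul_assoc, Matrix.mul_assoc, hst g', ← Matrix.mul_assoc,
          ← Matrix.mul_assoc] }
  have hA : ∀ g, A g = C * ρ g * B := fun g => rfl
  have hAc : Continuous A := by
    have h1 : Continuous fun g => C * ρ g * B :=
      (continuous_const.matrix_mul h.continuous.1).matrix_mul continuous_const
    exact h1
  have hiso' : Bᵀ * q * B = 0 := by
    apply Matrix.toLin'.injective
    apply LinearMap.ext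
    intro v
    rw [Matrix.toLin'_apply, map_zero, LinearMap.zero_apply]
    apply dotProduct_eq_zero
    intro w
    rw [dotProduct_comm, ← Matrix.mulVec_mulVec, ← Matrix.mulVec_mulVec,
      Matrix.dotProduct_mulVec w Bᵀ, Matrix.vecMul_transpose]
    exact hiso _ (hBW w) _ (hBW v)
  obtain ⟨U, hU, hnil⟩ := iso_open h A hAc B C hCB hst hiso'
  have hm : 0 < finrank ℚ_[ℓ] W := Submodule.one_le_finrank_iff.2 hne
  obtain ⟨v, hv, hfix⟩ := fixed_vec hm ((tw χ A).comp U.subtype) (fun g => hnil g g.2)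
  refine ⟨B *ᵥ v, hBW v, ?_, U, hU, ?_⟩
  · intro h0
    apply hv
    apply hBinj
    rw [Matrix.toLin'_apply, Matrix.toLin'_apply, h0, Matrix.mulVec_zero]
  · intro g hg
    have h1 : tw χ A g *ᵥ v = v := hfix ⟨g, hg⟩
    rw [Matrix.mulVec_mulVec, hst g, ← hA g, ← Matrix.mulVec_mulVec]
    have h2 : A g *ᵥ v = χ g • v := by
      rw [tw_apply, Matrix.smul_mulVec] at h1
      rw [← h1, smul_smul, mul_inv_cancel₀ (chi_ne χ g), one_smul, h1]
    rw [h2, Matrix.mulVec_smul]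

/-- **Theorem.** -/
theorem semisimple_iff (h : IsK3Type q S χ Pol ρ) :
    Semisimple ρ ↔ ∀ x, IsTate χ ρ x → (∀ y, IsTate χ ρ y → x ⬝ᵥ q *ᵥ y = 0) → x = 0 := by
  classical
  set bf := Matrix.toBilin' q with hbf
  have hbr : bf.IsRefl := refl h.symm
  set R := tate χ ρ with hR
  have hRs : Stable ρ R := tate_stable χ ρ
  obtain ⟨U, hUo, hU⟩ := tate_open χ ρ
  have hRo : Stable ρ (bf.orthogonal R) := orth_stable h.similitude hRs
  have hsymm : ∀ x y : n → ℚ_[ℓ], x ⬝ᵥ q *ᵥ y = y ⬝ᵥ q *ᵥ x := by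
    intro x y
    rw [Matrix.dotProduct_mulVec y, ← Matrix.mulVec_transpose, h.symm, dotProduct_comm]
  constructor
  · intro hss x hx hxy
    obtain ⟨W', hW', hc⟩ := hss _ hRo
    -- the complement consists of Tate classes
    have hle : W' ≤ R := by
      intro w hw
      refine ⟨U, hUo, fun g hg => ?_⟩
      have h1 : ρ g *ᵥ w - χ g • w ∈ W' := W'.sub_mem (hW' g w hw) (W'.smul_mem _ hw)
      have h2 : ρ g *ᵥ w - χ g • w ∈ bf.orthogonal R := by
        rw [LinearMap.BilinForm.mem_orthogonal_iff]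
        intro y hy
        have hy' : ρ g⁻¹ *ᵥ y = χ g⁻¹ • y := hU g⁻¹ (U.inv_mem hg) y hy
        have h3 := form_inv h.similitude g (ρ g⁻¹ *ᵥ y) w
        rw [inv_mulVec, hy', smul_dotProduct, smul_eq_mul] at h3
        have h4 : χ g * χ g⁻¹ = 1 := by rw [← map_mul, mul_inv_cancel, map_one]
        show bf y _ = 0
        rw [hbf, Matrix.toBilin'_apply', Matrix.mulVec_sub, dotProduct_sub, h3,
          Matrix.mulVec_smul, dotProduct_smul, smul_eq_mul]
        linear_combination (χ g * (y ⬝ᵥ q *ᵥ w)) * h4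
      have h3 := (Submodule.disjoint_def.1 hc.disjoint) _ h2 h1
      exact sub_eq_zero.1 h3
    have h1 : ∀ y : n → ℚ_[ℓ], x ⬝ᵥ q *ᵥ y = 0 := by
      intro y
      have hy : y ∈ bf.orthogonal R ⊔ W' := by rw [hc.sup_eq_top]; trivial
      obtain ⟨a, ha, w, hw, rfl⟩ := Submodule.mem_sup.1 hy
      rw [LinearMap.BilinForm.mem_orthogonal_iff] at ha
      have h2 : x ⬝ᵥ q *ᵥ a = 0 := by
        have := ha x hx
        rwa [hbf, Matrix.toBilin'_apply'] at this
      rw [Matrix.mulVec_add, dotProduct_add, h2, hxy w (hle hw), add_zero]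
    have h2 : q *ᵥ x = 0 := by
      apply dotProduct_eq_zero
      intro y
      rw [dotProduct_comm, ← hsymm, h1]
    have h3 : IsUnit q := (Matrix.isUnit_iff_isUnit_det q).2 (isUnit_iff_ne_zero.2 h.nondeg)
    have h4 := Matrix.mulVec_injective_of_isUnit h3
    exact h4 (by
      show q *ᵥ x = q *ᵥ 0
      rw [h2, Matrix.mulVec_zero])
  · intro hnd W hW
    have hRd : R ⊓ bf.orthogonal R = ⊥ := by
      rw [eq_bot_iff]
      rintro x ⟨hx, hx'⟩
      rw [SetLike.mem_coe, LinearMap.BilinForm.mem_orthogonal_iff] at hx'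
      refine hnd x hx fun y hy => ?_
      have := hx' y hy
      rwa [hbf, Matrix.toBilin'_apply', ← hsymm] at this
    -- stable subspaces of the orthogonal complement are nondegenerate
    have key : ∀ X : Submodule ℚ_[ℓ] (n → ℚ_[ℓ]), Stable ρ X → X ≤ bf.orthogonal R →
        X ⊓ bf.orthogonal X = ⊥ := by
      intro X hX hXR
      by_contra hne
      have hXo := orth_stable h.similitude hX
      obtain ⟨x, hx, hx0, hxT⟩ := iso_tate h (X ⊓ bf.orthogonal X)
        (fun g x hx => ⟨hX g x hx.1, hXo g x hx.2⟩) (fun x hx y hy => by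
          have := (LinearMap.BilinForm.mem_orthogonal_iff.1 hy.2) x hx.1
          rwa [hbf, Matrix.toBilin'_apply'] at this) hne
      have h1 : x ∈ R ⊓ bf.orthogonal R := ⟨hxT, hXR hx.1⟩
      rw [hRd] at h1
      exact hx0 h1
    set V' := bf.orthogonal R with hV'
    set W₁ := W ⊓ V' with hW₁
    have hW₁s : Stable ρ W₁ := fun g x hx => ⟨hW g x hx.1, hRo g x hx.2⟩
    have hd₁ := key W₁ hW₁s inf_le_right
    have hc₁ : IsCompl W₁ (bf.orthogonal W₁) :=
      (LinearMap.BilinForm.isCompl_orthogonal_iff_disjoint hbr).2 (disjoint_iff.2 hd₁)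
    have hcR : IsCompl R V' :=
      (LinearMap.BilinForm.isCompl_orthogonal_iff_disjoint hbr).2 (disjoint_iff.2 hRd)
    have hW₁o := orth_stable h.similitude hW₁s
    set W₂ := W ⊓ bf.orthogonal W₁ with hW₂
    have hW₂s : Stable ρ W₂ := fun g x hx => ⟨hW g x hx.1, hW₁o g x hx.2⟩
    have hW₂R : W₂ ≤ R := by
      intro w hw
      refine ⟨U, hUo, fun g hg => ?_⟩
      have hw' : w ∈ R ⊔ V' := by rw [hcR.sup_eq_top]; trivial
      obtain ⟨a, ha, c, hc, hac⟩ := Submodule.mem_sup.1 hw'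
      have h1 : ρ g *ᵥ w - χ g • w = ρ g *ᵥ c - χ g • c := by
        rw [← hac, Matrix.mulVec_add, hU g hg a ha, smul_add]
        abel
      have h2 : ρ g *ᵥ w - χ g • w ∈ V' := by
        rw [h1]
        exact V'.sub_mem (hRo g c hc) (V'.smul_mem _ hc)
      have h3 : ρ g *ᵥ w - χ g • w ∈ W₂ := W₂.sub_mem (hW₂s g w hw) (W₂.smul_mem _ hw)
      have h4 : ρ g *ᵥ w - χ g • w ∈ W₁ ⊓ bf.orthogonal W₁ := ⟨⟨h3.1, h2⟩, h3.2⟩
      rw [hd₁] at h4
      exact sub_eq_zero.1 h4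
    have hWsum : W₁ ⊔ W₂ = W := by
      apply le_antisymm (sup_le inf_le_left inf_le_left)
      intro w hw
      have hw' : w ∈ W₁ ⊔ bf.orthogonal W₁ := by rw [hc₁.sup_eq_top]; trivial
      obtain ⟨a, ha, c, hc, hac⟩ := Submodule.mem_sup.1 hw'
      refine Submodule.mem_sup.2 ⟨a, ha, c, ⟨?_, hc⟩, hac⟩
      have : c = w - a := by rw [← hac]; abel
      rw [this]
      exact W.sub_mem hw ha.1
    -- Maschke
    have hfin : Finite (GK ℚ ⧸ U) := Subgroup.quotient_finite_of_isOpen _ hUo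
    have htw : ∀ X : Submodule ℚ_[ℓ] (n → ℚ_[ℓ]), Stable (tw χ ρ) X ↔ Stable ρ X := by
      intro X
      constructor
      · intro hX g x hx
        have h1 := X.smul_mem (χ g) (hX g x hx)
        rwa [tw_apply, Matrix.smul_mulVec, smul_smul, mul_inv_cancel₀ (chi_ne χ g), one_smul] at h1
      · intro hX g x hx
        rw [tw_apply, Matrix.smul_mulVec]
        exact X.smul_mem _ (hX g x hx)
    obtain ⟨W₂', h21, h22, h23, h24⟩ := maschke (tw χ ρ) U R ((htw R).2 hRs) (by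
      intro u hu x hx
      rw [tw_apply, Matrix.smul_mulVec, hU u hu x hx, smul_smul, inv_mul_cancel₀ (chi_ne χ u),
        one_smul]) W₂ hW₂R ((htw W₂).2 hW₂s)
    have h22' := (htw W₂').1 h22
    set W₁' := V' ⊓ bf.orthogonal W₁ with hW₁'
    refine ⟨W₁' ⊔ W₂', ?_, ?_⟩
    · intro g x hx
      obtain ⟨a, ha, c, hc, rfl⟩ := Submodule.mem_sup.1 hx
      rw [Matrix.mulVec_add]
      exact Submodule.add_mem_sup ⟨hRo g a ha.1, hW₁o g a ha.2⟩ (h22' g c hc)
    · constructor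
      · rw [disjoint_iff, eq_bot_iff]
        rintro x ⟨hx, hx'⟩
        rw [SetLike.mem_coe, ← hWsum] at hx
        obtain ⟨a, ha, c, hc, hac⟩ := Submodule.mem_sup.1 hx
        obtain ⟨a', ha', c', hc', hac'⟩ := Submodule.mem_sup.1 hx'
        -- compare the components in `R` and `V'`
        have h1 : a - a' = c' - c := by
          have : a + c = a' + c' := by rw [hac, hac']
          linear_combination (exp := 1) this
        have h2 : a - a' ∈ R ⊓ V' := by
          refine ⟨?_, V'.sub_mem ha.2 ha'.1⟩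
          rw [h1]
          exact R.sub_mem (h21 hc') (hW₂R hc)
        rw [hRd] at h2
        have h3 : a = a' := sub_eq_zero.1 h2
        have h4 : c = c' := by
          rw [h3, sub_self] at h1
          exact (sub_eq_zero.1 h1.symm).symm
        have h5 : a ∈ W₁ ⊓ bf.orthogonal W₁ := ⟨ha, by rw [h3]; exact ha'.2⟩
        rw [hd₁] at h5
        have h6 : c ∈ W₂ ⊓ W₂' := ⟨hc, by rw [h4]; exact hc'⟩
        rw [h23] at h6
        rw [← hac, (Submodule.mem_bot _).1 h5, (Submodule.mem_bot _).1 h6, add_zero]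
        exact Submodule.zero_mem _
      · rw [codisjoint_iff, eq_top_iff]
        intro x _
        have hx' : x ∈ R ⊔ V' := by rw [hcR.sup_eq_top]; trivial
        obtain ⟨a, ha, c, hc, rfl⟩ := Submodule.mem_sup.1 hx'
        have h1 : a ∈ W ⊔ (W₁' ⊔ W₂') := by
          rw [← h24] at ha
          obtain ⟨u, hu, w, hw, rfl⟩ := Submodule.mem_sup.1 ha
          exact Submodule.add_mem _ (Submodule.mem_sup_left hu.1)
            (Submodule.mem_sup_right (Submodule.mem_sup_right hw))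
        have h2 : c ∈ W ⊔ (W₁' ⊔ W₂') := by
          have hc' : c ∈ W₁ ⊔ bf.orthogonal W₁ := by rw [hc₁.sup_eq_top]; trivial
          obtain ⟨u, hu, w, hw, huw⟩ := Submodule.mem_sup.1 hc'
          have hw' : w ∈ V' := by
            have : w = c - u := by rw [← huw]; abel
            rw [this]
            exact V'.sub_mem hc hu.2
          rw [← huw]
          exact Submodule.add_mem _ (Submodule.mem_sup_left hu.1)
            (Submodule.mem_sup_right (Submodule.mem_sup_left ⟨hw', hw⟩))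
        exact Submodule.add_mem _ h1 h2

end

end Pool.Agent.H851.K3
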