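import Mathlib
import Pool.Graph.R_seed8.Y759.TS.Kol

/-!
# Linear algebra: characteristic polynomials of restrictions, simple roots, unipotent groups
-/

set_option autoImplicit false

namespace Pool.Agent.H851.K3

open Matrix Polynomial Module

section

variable {R V : Type*} [Field R] [AddCommGroup V] [Module R V] [Module.Finite R V]

open Module.Basis in
/-- the characteristic polynomial of an endomorphism with a stable subspace -/
theorem charpoly_split (W : Submodule R V) (e : V →ₗ[R] V) (he : W ≤ W.comap e) :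
    e.charpoly = (e.restrict he).charpoly * (W.mapQ W e he).charpoly := by
  let m := Module.Free.ChooseBasisIndex R W
  let bW : Basis m R W := Module.Free.chooseBasis R W
  let n := Module.Free.ChooseBasisIndex R (V ⧸ W)
  let bQ : Basis n R (V ⧸ W) := Module.Free.chooseBasis R (V ⧸ W)
  let b := sumQuot bW bQ
  let A : Matrix m m R := LinearMap.toMatrix bW bW (e.restrict he)
  let B : Matrix m n R := Matrix.of fun i l ↦
    ((sumQuot bW bQ).repr (e ((sumQuot bW bQ) (Sum.inr l)))) (Sum.inl i)
  let D : Matrix n n R := LinearMap.toMatrix bQ bQ (W.mapQ W e he)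
  suffices LinearMap.toMatrix b b e = Matrix.fromBlocks A B 0 D by
    rw [← LinearMap.charpoly_toMatrix e b, this, ← LinearMap.charpoly_toMatrix _ bW,
      ← LinearMap.charpoly_toMatrix _ bQ, Matrix.charpoly_fromBlocks_zero₂₁]
  ext u v
  cases u with
  | inl i =>
    cases v with
    | inl k =>
      simp only [b, sumQuot_inl, Matrix.fromBlocks_apply₁₁, A, LinearMap.toMatrix_apply]
      apply sumQuot_repr_inl_of_mem
    | inr l => simp [b, LinearMap.toMatrix_apply, Matrix.fromBlocks_apply₁₂, B]
  | inr j =>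
    cases v with
    | inl k =>
      suffices W.mkQ (e (bW k)) = 0 by simp [LinearMap.toMatrix_apply, b, this]
      rw [← LinearMap.mem_ker, Submodule.ker_mkQ]
      exact he (Submodule.coe_mem (bW k))
    | inr l =>
      simp only [LinearMap.toMatrix_apply, sumQuot_repr_inr,
        Matrix.fromBlocks_apply₂₂, b, D]
      rw [← sumQuot_inr bW bQ l, W.mapQ_apply]
      simp

/-- an eigenvector in a stable subspace and an eigenvector of the quotient for the same eigenvalue -/
theorem two_le_mult (W : Submodule R V) (e : V →ₗ[R] V) (he : W ≤ W.comap e) (μ : R) (x : V)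
    (hx : x ∈ W) (hx0 : x ≠ 0) (hex : e x = μ • x) (y : V) (hy : y ∉ W) (hey : e y - μ • y ∈ W) :
    2 ≤ e.charpoly.rootMultiplicity μ := by
  have h0 : e.charpoly ≠ 0 := e.charpoly_monic.ne_zero
  have h1 : (e.restrict he).charpoly.IsRoot μ := by
    rw [← Module.End.hasEigenvalue_iff_isRoot_charpoly]
    refine Module.End.hasEigenvalue_of_hasEigenvector (x := ⟨x, hx⟩) ?_
    rw [Module.End.hasEigenvector_iff]
    refine ⟨?_, ?_⟩
    · rw [Module.End.mem_eigenspace_iff]
      apply Subtype.ext
      exact hex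
    · intro h
      exact hx0 (congrArg Subtype.val h)
  have h2 : (W.mapQ W e he).charpoly.IsRoot μ := by
    rw [← Module.End.hasEigenvalue_iff_isRoot_charpoly]
    refine Module.End.hasEigenvalue_of_hasEigenvector (x := W.mkQ y) ?_
    rw [Module.End.hasEigenvector_iff]
    refine ⟨?_, ?_⟩
    · rw [Module.End.mem_eigenspace_iff, Submodule.mkQ_apply, Submodule.mapQ_apply,
        ← Submodule.Quotient.mk_smul, Submodule.Quotient.eq]
      exact hey
    · intro h
      apply hy
      rw [Submodule.mkQ_apply, Submodule.Quotient.mk_eq_zero] at h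
      exact h
  rw [charpoly_split W e he] at h0 ⊢
  rw [rootMultiplicity_mul h0]
  have h3 := (rootMultiplicity_pos (left_ne_zero_of_mul h0)).2 h1
  have h4 := (rootMultiplicity_pos (right_ne_zero_of_mul h0)).2 h2
  omega

end

section

variable {F n m : Type} [Field F] [Fintype n] [DecidableEq n] [Fintype m] [DecidableEq m]

theorem charpoly_lin (M : Matrix n n F) : (Matrix.toLin' M).charpoly = M.charpoly := by
  rw [← LinearMap.charpoly_toMatrix (Matrix.toLin' M) (Pi.basisFun F n)]
  congr 1
  exact LinearMap.toMatrix'_toLin' M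

/-- the characteristic polynomial of the matrix on a stable subspace -/
theorem charpoly_dvd (M : Matrix n n F) (A : Matrix m m F) (B : Matrix n m F) (C : Matrix m n F)
    (hCB : C * B = 1) (h : M * B = B * A) : A.charpoly ∣ M.charpoly := by
  have hinj : Function.Injective (Matrix.toLin' B) := by
    intro x y hxy
    have h1 := congrArg (Matrix.toLin' C) hxy
    rw [← LinearMap.comp_apply, ← LinearMap.comp_apply, ← Matrix.toLin'_mul, hCB,
      Matrix.toLin'_one] at h1
    exact h1
  set W := LinearMap.range (Matrix.toLin' B) with hW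
  have he : W ≤ W.comap (Matrix.toLin' M) := by
    rintro _ ⟨x, rfl⟩
    refine ⟨A *ᵥ x, ?_⟩
    rw [Matrix.toLin'_apply, Matrix.toLin'_apply, Matrix.toLin'_apply, Matrix.mulVec_mulVec,
      Matrix.mulVec_mulVec, h]
  let e : (m → F) ≃ₗ[F] W := LinearEquiv.ofInjective _ hinj
  have h1 : (Matrix.toLin' M).restrict he = e.conj (Matrix.toLin' A) := by
    apply LinearMap.ext
    intro x
    obtain ⟨y, rfl⟩ := e.surjective x
    rw [LinearEquiv.conj_apply_apply, LinearEquiv.symm_apply_apply]
    apply Subtype.ext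
    show M *ᵥ (B *ᵥ y) = B *ᵥ (A *ᵥ y)
    rw [Matrix.mulVec_mulVec, Matrix.mulVec_mulVec, h]
  have h2 : ((Matrix.toLin' M).restrict he).charpoly = A.charpoly := by
    rw [h1, LinearEquiv.charpoly_conj, charpoly_lin]
  rw [← charpoly_lin M, charpoly_split W _ he, h2]
  exact Dvd.intro _ rfl

/-- the left and the right eigenvector of a simple eigenvalue are not orthogonal -/
theorem left_right {M : Matrix n n F} {μ : F} (hs : M.charpoly.rootMultiplicity μ = 1) {x y : n → F}
    (hx : x ≠ 0) (hMx : M *ᵥ x = μ • x) (hy : y ≠ 0) (hyM : y ᵥ* M = μ • y) : y ⬝ᵥ x ≠ 0 := by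
  intro h
  let f : (n → F) →ₗ[F] F := LinearMap.mk (AddHom.mk (fun v => y ⬝ᵥ v) (fun a b => dotProduct_add _ _ _))
    (fun c a => by simp [dotProduct_smul])
  have hf : ∀ v, f v = y ⬝ᵥ v := fun v => rfl
  have hfM : ∀ v, f (M *ᵥ v) = μ * f v := by
    intro v
    rw [hf, hf, Matrix.dotProduct_mulVec, hyM, smul_dotProduct, smul_eq_mul]
  obtain ⟨z, hz⟩ : ∃ z, f z ≠ 0 := by
    by_contra hcon
    push Not at hcon
    apply hy
    exact dotProduct_eq_zero y hcon
  have h2 := two_le_mult (LinearMap.ker f) (Matrix.toLin' M) (by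
    intro v hv
    rw [Submodule.mem_comap, LinearMap.mem_ker, Matrix.toLin'_apply, hfM, LinearMap.mem_ker.1 hv,
      mul_zero]) μ x (LinearMap.mem_ker.2 h) hx (by rw [Matrix.toLin'_apply, hMx]) z
    (fun hz' => hz (LinearMap.mem_ker.1 hz')) (by
      rw [LinearMap.mem_ker, map_sub, Matrix.toLin'_apply, hfM, map_smul, smul_eq_mul, sub_self])
  rw [charpoly_lin, hs] at h2
  omega

/-- an eigenvector for a root of the characteristic polynomial -/
theorem exists_eigenvector {M : Matrix n n F} {μ : F} (h : M.charpoly.IsRoot μ) :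
    ∃ x, x ≠ 0 ∧ M *ᵥ x = μ • x := by
  rw [Polynomial.IsRoot.def, Matrix.eval_charpoly] at h
  obtain ⟨v, hv, h⟩ := Matrix.exists_mulVec_eq_zero_iff.2 h
  refine ⟨v, hv, ?_⟩
  rw [Matrix.sub_mulVec, sub_eq_zero] at h
  rw [← h, Matrix.scalar_apply, ← Matrix.smul_one_eq_diagonal, Matrix.smul_mulVec, Matrix.one_mulVec]

end

/-- **Kolchin's theorem**: a group of unipotent matrices has a fixed vector -/
theorem fixed_vec {k G : Type} [Field k] [Group G] {m : ℕ} (hm : 0 < m)
    (θ : G →* Matrix (Fin m) (Fin m) k) (h : ∀ g, IsNilpotent (θ g - 1)) :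
    ∃ v, v ≠ 0 ∧ ∀ g, θ g *ᵥ v = v := by
  classical
  let P : ℕ → Prop := fun j => ∀ l : List G, l.length = j → (l.map fun g => θ g - 1).prod = 0
  have hP : P m := by
    intro l hl
    have h3 := Pool.Agent.Y759.TS.t_KOL k G m θ.toHomUnits (fun g => h g)
      (fun i => l.get (i.cast hl.symm))
    have h4 : (List.ofFn fun i : Fin m => ((θ.toHomUnits (l.get (i.cast hl.symm)) : GL (Fin m) k) :
        Matrix (Fin m) (Fin m) k) - 1) = l.map fun g => θ g - 1 := by
      apply List.ext_get
      · simp [hl]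
      · intro j hj hj'
        simp
    rw [h4] at h3
    exact h3
  have hex : ∃ j, P j := ⟨m, hP⟩
  have hne : Nonempty (Fin m) := ⟨⟨0, hm⟩⟩
  have hf0 : Nat.find hex ≠ 0 := by
    intro h0
    have h1 := Nat.find_spec hex
    rw [h0] at h1
    have h2 := h1 [] rfl
    rw [List.map_nil, List.prod_nil] at h2
    exact one_ne_zero h2
  obtain ⟨j, hj⟩ : ∃ j, Nat.find hex = j + 1 := ⟨Nat.find hex - 1, by omega⟩
  have hmin : ¬ P j := Nat.find_min hex (by omega)
  unfold P at hmin
  push Not at hmin
  obtain ⟨l, hl, hX⟩ := hmin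
  set X := (l.map fun g => θ g - 1).prod with hXdef
  obtain ⟨v, hv⟩ : ∃ v, X *ᵥ v ≠ 0 := by
    by_contra hcon
    push Not at hcon
    apply hX
    apply Matrix.toLin'.injective
    apply LinearMap.ext
    intro x
    rw [Matrix.toLin'_apply, hcon x, map_zero, LinearMap.zero_apply]
  refine ⟨X *ᵥ v, hv, fun g => ?_⟩
  have h1 := Nat.find_spec hex
  rw [hj] at h1
  have h2 := h1 (g :: l) (by rw [List.length_cons, hl])
  rw [List.map_cons, List.prod_cons, ← hXdef] at h2
  have h3 := congrArg (fun Y => Y *ᵥ v) h2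
  rw [← Matrix.mulVec_mulVec, Matrix.sub_mulVec, Matrix.one_mulVec, Matrix.zero_mulVec,
    sub_eq_zero] at h3
  exact h3

end Pool.Agent.H851.K3
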