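import Pool.Agent.H851.K3.Fro
import Pool.Agent.H851.K3.Lin
import Pool.Graph.R_seed8.Y115.CharQ

/-!
# Isotropic subrepresentations over `ℚ` are potentially unipotent
-/

set_option autoImplicit false

namespace Pool.Agent.H851.K3

open Matrix Polynomial Filter Topology NumberField IsDedekindDomain
open Pool.Agent.NH56.HY

/-- three Frobenius elements -/
theorem three_frob (S : Finset ℕ) : ∃ (l : Fin 3 → ℕ) (v : Fin 3 → HeightOneSpectrum (𝓞 ℚ))
    (σ : Fin 3 → GK ℚ), Function.Injective l ∧ ∀ i, (l i).Prime ∧ l i ∉ S ∧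
      Ideal.absNorm (v i).asIdeal = l i ∧ IsFrobenius (v i) (σ i) := by
  have hU : IsOpen (Set.univ : Set (GK ℚ)) := isOpen_univ
  obtain ⟨p₀, hp₀, hpS₀, v₀, hv₀, σ₀, hσ₀, -⟩ := t_DG1 ℚ Set.univ hU ⟨1, trivial⟩ S
  obtain ⟨p₁, hp₁, hpS₁, v₁, hv₁, σ₁, hσ₁, -⟩ := t_DG1 ℚ Set.univ hU ⟨1, trivial⟩ (insert p₀ S)
  obtain ⟨p₂, hp₂, hpS₂, v₂, hv₂, σ₂, hσ₂, -⟩ :=
    t_DG1 ℚ Set.univ hU ⟨1, trivial⟩ (insert p₁ (insert p₀ S))
  simp only [Finset.mem_insert, not_or] at hpS₁ hpS₂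
  refine ⟨![p₀, p₁, p₂], ![v₀, v₁, v₂], ![σ₀, σ₁, σ₂], ?_, ?_⟩
  · intro i j hij
    fin_cases i <;> fin_cases j <;> simp_all
  · intro i
    fin_cases i
    · exact ⟨hp₀, hpS₀, hv₀, hσ₀⟩
    · exact ⟨hp₁, hpS₁.2, hv₁, hσ₁⟩
    · exact ⟨hp₂, hpS₂.2.2, hv₂, hσ₂⟩

section

variable {Γ : Type} [Group Γ] {ℓ : ℕ} [Fact ℓ.Prime] {n m : Type} [Fintype n] [DecidableEq n]
  [Fintype m] [DecidableEq m] (χ : Γ →* ℚ_[ℓ]) (ρ : Γ →* Matrix n n ℚ_[ℓ])

theorem R_eq (g : Γ) : R χ ρ g = (tw χ ρ g).map (algebraMap ℚ_[ℓ] (PadicAlgCl ℓ)) := rfl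

theorem R_intertwine (A : Γ →* Matrix m m ℚ_[ℓ]) (B : Matrix n m ℚ_[ℓ]) {g : Γ}
    (h : ρ g * B = B * A g) :
    R χ ρ g * B.map (algebraMap ℚ_[ℓ] (PadicAlgCl ℓ)) =
      B.map (algebraMap ℚ_[ℓ] (PadicAlgCl ℓ)) * R χ A g := by
  rw [R_eq, R_eq, ← Matrix.map_mul, ← Matrix.map_mul, tw_apply, tw_apply, Matrix.smul_mul, h,
    Matrix.mul_smul]

theorem R_det (A : Γ →* Matrix m m ℚ_[ℓ]) (g : Γ) :
    (R χ A g).det = algebraMap ℚ_[ℓ] (PadicAlgCl ℓ) ((χ g)⁻¹ ^ Fintype.card m * (A g).det) := by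
  rw [R_eq, ← RingHom.mapMatrix_apply, ← RingHom.map_det, tw_apply, Matrix.det_smul]

theorem R_orth {q : Matrix n n ℚ_[ℓ]} {g : Γ} (h : (ρ g)ᵀ * q * ρ g = χ g ^ 2 • q) :
    (R χ ρ g)ᵀ * q.map (algebraMap ℚ_[ℓ] (PadicAlgCl ℓ)) * R χ ρ g =
      q.map (algebraMap ℚ_[ℓ] (PadicAlgCl ℓ)) := by
  have h1 : (tw χ ρ g)ᵀ * q * tw χ ρ g = q := by
    rw [tw_apply, Matrix.transpose_smul, Matrix.smul_mul, Matrix.smul_mul, Matrix.mul_smul, h,
      smul_smul, smul_smul]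
    have := chi_ne χ g
    rw [show (χ g)⁻¹ * (χ g)⁻¹ * χ g ^ 2 = 1 by field_simp, one_smul]
  rw [R_eq, ← Matrix.transpose_map, ← Matrix.map_mul, ← Matrix.map_mul, h1]

end

section

variable {ℓ : ℕ} [hℓ : Fact ℓ.Prime] {n : Type}
    [Fintype n] [DecidableEq n] {q : Matrix n n ℚ_[ℓ]} {S : Finset ℕ} {χ : GK ℚ →* ℚ_[ℓ]}
    {Pol : HeightOneSpectrum (𝓞 ℚ) → ℤ[X]} {ρ : GK ℚ →* Matrix n n ℚ_[ℓ]} {m : Type} [Fintype m]
    [DecidableEq m]

/-- the determinant of a subrepresentation is a power of the cyclotomic character up to a character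
of finite order -/
theorem det_char (h : IsK3Type q S χ Pol ρ) (A : GK ℚ →* Matrix m m ℚ_[ℓ]) (hA : Continuous A)
    (B : Matrix n m ℚ_[ℓ]) (C : Matrix m n ℚ_[ℓ]) (hCB : C * B = 1)
    (hAB : ∀ g, ρ g * B = B * A g) :
    ∃ (N : ℕ) (a : ℤ), 0 < N ∧ ∀ (p : ℕ) [Fact p.Prime], p ≠ ℓ → ∀ v,
      Ideal.absNorm v.asIdeal = p → ∀ σ : GK ℚ, IsFrobenius v σ → (A σ⁻¹).det ^ N = (p : ℚ_[ℓ]) ^ a := by
  let D : GK ℚ →* ℚ_[ℓ] := (Matrix.detMonoidHom).comp A
  let θ : GK ℚ →* ℚ_[ℓ]ˣ := D.toHomUnits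
  have hDc : Continuous D := hA.matrix_det
  have hθv : ∀ g, (θ g : ℚ_[ℓ]) = (A g).det := fun g => rfl
  have hθ : Continuous θ := by
    rw [Units.continuous_iff]
    refine ⟨hDc, ?_⟩
    have h1 : (fun x => (((θ x)⁻¹ : ℚ_[ℓ]ˣ) : ℚ_[ℓ])) = fun g => D g⁻¹ := by
      funext g
      rw [← map_inv]
      rfl
    rw [h1]
    exact hDc.comp continuous_inv
  obtain ⟨l, v, σ, hinj, hall⟩ := three_frob (insert ℓ S)
  have hmem := fun i => (Finset.mem_insert.not.1 (hall i).2.1)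
  have hex := fun i => (hall i).2.2.2
  choose Q hQ1 hQ2 hQ3 using hex
  have hlQ : ∀ i, (l i : 𝓞 (AlgebraicClosure ℚ)) ∈ Q i := by
    intro i
    have h1 : (l i : 𝓞 ℚ) ∈ (v i).asIdeal := by
      rw [← (hall i).2.2.1]
      exact Ideal.absNorm_mem _
    rw [← hQ2 i, Ideal.mem_comap, map_natCast] at h1
    exact h1
  have halg : ∀ i, IsAlgebraic ℚ (θ (σ i) : ℚ_[ℓ]) := by
    intro i
    have : Fact (l i).Prime := ⟨(hall i).1⟩
    have hl : l i ∉ S := fun h' => hmem i (Or.inr h')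
    have h1 : IsAlgebraic ℚ (θ (σ i)⁻¹ : ℚ_[ℓ]) := by
      rw [hθv]
      have h2 : IsAlgebraic ℚ (algebraMap ℚ_[ℓ] (PadicAlgCl ℓ) ((A (σ i)⁻¹).det)) := by
        have e1 : algebraMap ℚ_[ℓ] (PadicAlgCl ℓ) ((A (σ i)⁻¹).det) =
            ((A (σ i)⁻¹).map (algebraMap ℚ_[ℓ] (PadicAlgCl ℓ))).det := by
          rw [← RingHom.mapMatrix_apply, ← RingHom.map_det]
        rw [e1, Matrix.det_eq_prod_roots_charpoly]
        have h3 : ∀ x ∈ ((A (σ i)⁻¹).map (algebraMap ℚ_[ℓ] (PadicAlgCl ℓ))).charpoly.roots,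
            IsAlgebraic ℚ x := by
          intro x hx
          have h4 := charpoly_dvd (ρ (σ i)⁻¹) (A (σ i)⁻¹) B C hCB (hAB _)
          rw [(h.frobenius (l i) hl (v i) (hall i).2.2.1 (σ i) (hall i).2.2.2).2] at h4
          have h5 := isRoot_of_mem_roots hx
          rw [Matrix.charpoly_map] at h5
          have h6 := h5.dvd (Polynomial.map_dvd (algebraMap ℚ_[ℓ] (PadicAlgCl ℓ)) h4)
          rw [Polynomial.map_map, IsRoot.def, eval_map] at h6
          have hm := (h.weil (l i) hl (v i) (hall i).2.2.1).1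
          refine ⟨(Pol (v i)).map (Int.castRingHom ℚ), (hm.map _).ne_zero, ?_⟩
          rw [aeval_def, eval₂_map, ← h6]
          congr 1
        generalize ((A (σ i)⁻¹).map (algebraMap ℚ_[ℓ] (PadicAlgCl ℓ))).charpoly.roots = s at h3
        induction s using Multiset.induction_on with
        | empty => rw [Multiset.prod_zero]; exact isAlgebraic_one
        | cons a s ih =>
          rw [Multiset.prod_cons]
          exact (h3 a (Multiset.mem_cons_self a s)).mul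
            (ih fun x hx => h3 x (Multiset.mem_cons_of_mem hx))
      have hi : Function.Injective (algebraMap ℚ_[ℓ] (PadicAlgCl ℓ)) :=
        (algebraMap ℚ_[ℓ] (PadicAlgCl ℓ)).injective
      exact (isAlgebraic_algHom_iff ((algebraMap ℚ_[ℓ] (PadicAlgCl ℓ)).toRatAlgHom) hi).1 h2
    rw [map_inv, Units.val_inv_eq_inv_val] at h1
    exact IsAlgebraic.inv_iff.1 h1
  obtain ⟨N, a, hN, hNa⟩ := Pool.Agent.Y115.CQ.char_main θ hθ l (fun i => (hall i).1) hinj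
    (fun i h' => hmem i (Or.inl h')) Q (fun i => (hQ1 i).isPrime) hlQ σ
    (fun i x => by
      have := hQ3 i x
      rw [(hall i).2.2.1] at this
      exact this) halg
  refine ⟨N, -a, hN, ?_⟩
  intro p hp hpℓ v hv σ hσ
  obtain ⟨Q, hQ1, hQ2, hQ3⟩ := hσ
  have h1 := hNa σ
  have hlQ : (ℓ : 𝓞 (AlgebraicClosure ℚ)) ∉ Q := by
    intro h'
    have h2 : (p : 𝓞 (AlgebraicClosure ℚ)) ∈ Q := by
      have h1 : (p : 𝓞 ℚ) ∈ v.asIdeal := by
        rw [← hv]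
        exact Ideal.absNorm_mem _
      rw [← hQ2, Ideal.mem_comap, map_natCast] at h1
      exact h1
    have hcop : Nat.Coprime p ℓ := (Nat.coprime_primes hp.out hℓ.out).2 hpℓ
    apply hQ1.ne_top
    rw [Ideal.eq_top_iff_one]
    have h3 := Nat.gcd_eq_gcd_ab p ℓ
    rw [hcop.gcd_eq_one] at h3
    have h4 : (1 : 𝓞 (AlgebraicClosure ℚ)) = (p : 𝓞 (AlgebraicClosure ℚ)) * ((p.gcdA ℓ : ℤ) : 𝓞 (AlgebraicClosure ℚ)) +
      (ℓ : 𝓞 (AlgebraicClosure ℚ)) * ((p.gcdB ℓ : ℤ) : 𝓞 (AlgebraicClosure ℚ)) := by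
        exact_mod_cast congrArg (Int.cast : ℤ → 𝓞 (AlgebraicClosure ℚ)) h3
    rw [h4]
    exact Q.add_mem (Q.mul_mem_right _ h2) (Q.mul_mem_right _ h')
  have h2 := Pool.Agent.Y115.Chi.chi_frob (F := ℚ) (ℓ := ℓ) (q := p) hQ1.isPrime hlQ (σ := σ)
    (fun x => by
      have := hQ3 x
      rw [hv] at this
      exact this)
  have h3 : ((Pool.Agent.Y115.CQ.chiE ℓ ℚ_[ℓ] σ : ℚ_[ℓ]ˣ) : ℚ_[ℓ]) = p := by
    rw [Pool.Agent.Y115.CQ.coe_chiE, h2]
    simp
  have h4 : (A σ⁻¹).det ^ N = ((θ σ)⁻¹ ^ N : ℚ_[ℓ]ˣ) := by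
    rw [Units.val_pow_eq_pow_val, ← map_inv, hθv]
  rw [h4, inv_pow, h1, Units.val_inv_eq_inv_val, Units.val_zpow_eq_zpow_val, h3, _root_.zpow_neg]

/-- the determinant of a subrepresentation at a Frobenius element is a root of unity after the twist -/
theorem det_root (h : IsK3Type q S χ Pol ρ) (A : GK ℚ →* Matrix m m ℚ_[ℓ])
    (B : Matrix n m ℚ_[ℓ]) (C : Matrix m n ℚ_[ℓ]) (hCB : C * B = 1)
    (hAB : ∀ g, ρ g * B = B * A g) (N : ℕ) (a : ℤ) (p : ℕ) [hp : Fact p.Prime] (hpS : p ∉ S)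
    (v : HeightOneSpectrum (𝓞 ℚ)) (hv : Ideal.absNorm v.asIdeal = p) (σ : GK ℚ)
    (hσ : IsFrobenius v σ) (ha : (A σ⁻¹).det ^ N = (p : ℚ_[ℓ]) ^ a) :
    (R χ A σ⁻¹).det ^ N = 1 := by
  obtain ⟨h1, h2⟩ := h.frobenius p hpS v hv σ hσ
  obtain ⟨hmon, hweil⟩ := h.weil p hpS v hv
  obtain ⟨s⟩ := Pool.Agent.NH66.HY.Nwt.exists_hom ℚ (PadicAlgCl ℓ)
  obtain ⟨τ⟩ := Pool.Agent.NH66.HY.Nwt.exists_hom ℚ ℂ
  have hroots := roots_eq h hpS hv hσ s
  have hp0 : (p : AlgebraicClosure ℚ) ≠ 0 := Nat.cast_ne_zero.2 hp.out.ne_zero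
  have hpr : (1 : ℝ) < p := by exact_mod_cast hp.out.one_lt
  -- the determinant is the image of an algebraic number with absolute value one
  have ht : ∃ t : AlgebraicClosure ℚ, s t = (R χ A σ⁻¹).det ∧ ‖τ t‖ = 1 := by
    rw [Matrix.det_eq_prod_roots_charpoly]
    have h3 : ∀ x ∈ (R χ A σ⁻¹).charpoly.roots, ∃ t : AlgebraicClosure ℚ, s t = x ∧ ‖τ t‖ = 1 := by
      intro x hx
      have h4 := charpoly_dvd (R χ ρ σ⁻¹) (R χ A σ⁻¹) (B.map (algebraMap ℚ_[ℓ] (PadicAlgCl ℓ)))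
        (C.map (algebraMap ℚ_[ℓ] (PadicAlgCl ℓ)))
        (by rw [← Matrix.map_mul, hCB, Matrix.map_one _ (map_zero _) (map_one _)])
        (R_intertwine χ ρ A B (hAB _))
      have h5 := (isRoot_of_mem_roots hx).dvd h4
      rw [← mem_roots (Matrix.charpoly_monic _).ne_zero, hroots, Multiset.mem_map] at h5
      obtain ⟨b, hb, rfl⟩ := h5
      refine ⟨b / p, rfl, ?_⟩
      have h6 : aeval b (Pol v) = 0 := by
        have h2 := isRoot_of_mem_roots hb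
        rw [IsRoot.def, eval_map] at h2
        rw [aeval_def, Subsingleton.elim (algebraMap ℤ (AlgebraicClosure ℚ)) (Int.castRingHom _)]
        exact h2
      have h7 := (t_ARI.2 (Pol v) p 2 hmon hweil b h6).2.1 τ
      have h8 : ‖τ (b / p)‖ ^ 2 = 1 := by
        rw [map_div₀, norm_div, div_pow, h7, map_natCast, Complex.norm_natCast]
        exact div_self (by positivity)
      exact (pow_eq_one_iff_of_nonneg (norm_nonneg _) two_ne_zero).1 h8
    generalize (R χ A σ⁻¹).charpoly.roots = r at h3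
    induction r using Multiset.induction_on with
    | empty => exact ⟨1, by simp, by simp⟩
    | cons a r ih =>
      obtain ⟨t, ht1, ht2⟩ := ih fun x hx => h3 x (Multiset.mem_cons_of_mem hx)
      obtain ⟨u, hu1, hu2⟩ := h3 a (Multiset.mem_cons_self a r)
      refine ⟨u * t, ?_, ?_⟩
      · rw [map_mul, hu1, ht1, Multiset.prod_cons]
      · rw [map_mul, norm_mul, hu2, ht2, one_mul]
  obtain ⟨t, ht1, ht2⟩ := ht
  have h3 : s (t ^ N) = s ((p : AlgebraicClosure ℚ) ^ (a - (Fintype.card m * N : ℕ))) := by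
    rw [map_pow, ht1, R_det, ← map_pow, mul_pow, ha, h1, map_mul, map_zpow₀, map_natCast, map_pow,
      map_pow, map_inv₀, map_natCast, map_zpow₀, map_natCast]
    have hp1 : (p : PadicAlgCl ℓ) ≠ 0 := Nat.cast_ne_zero.2 hp.out.ne_zero
    rw [zpow_sub₀ hp1, _root_.zpow_natCast, div_eq_inv_mul, pow_mul, inv_pow, inv_pow]
  have h4 := s.injective h3
  have h5 := congrArg (fun x => ‖τ x‖) h4
  simp only [map_pow, map_zpow₀, norm_pow, ht2, one_pow, norm_zpow, map_natCast,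
    Complex.norm_natCast] at h5
  have h6 : a - (Fintype.card m * N : ℕ) = 0 := by
    rw [← zpow_zero (p : ℝ)] at h5
    exact (zpow_right_injective₀ (by positivity) hpr.ne' h5).symm
  rw [← ht1, ← map_pow, h4, h6, zpow_zero, map_one]

/-- an ordinary Frobenius element is unipotent (after the twist) on an isotropic subrepresentation -/
theorem iso_ord (h : IsK3Type q S χ Pol ρ) (A : GK ℚ →* Matrix m m ℚ_[ℓ])
    (B : Matrix n m ℚ_[ℓ]) (C : Matrix m n ℚ_[ℓ]) (hCB : C * B = 1)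
    (hAB : ∀ g, ρ g * B = B * A g) (hiso : Bᵀ * q * B = 0) (N : ℕ) (hN : 0 < N)
    (p : ℕ) [hp : Fact p.Prime] (hpS : p ∉ S)
    (v : HeightOneSpectrum (𝓞 ℚ)) (hv : Ideal.absNorm v.asIdeal = p) (σ : GK ℚ)
    (hσ : IsFrobenius v σ) (hord : ¬ (p : ℤ) ∣ (Pol v).coeff (Fintype.card n - 1))
    (hnear : σ⁻¹ ∈ Near χ ρ) (hdet : (R χ A σ⁻¹).det ^ N = 1) :
    ∀ β, (R χ A σ⁻¹).charpoly.IsRoot β → β = 1 := by
  intro β hβ
  by_contra hβ1
  classical
  set M := R χ ρ σ⁻¹ with hM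
  set M' := R χ A σ⁻¹ with hM'
  set B' := B.map (algebraMap ℚ_[ℓ] (PadicAlgCl ℓ)) with hB'
  set C' := C.map (algebraMap ℚ_[ℓ] (PadicAlgCl ℓ)) with hC'
  set q' := q.map (algebraMap ℚ_[ℓ] (PadicAlgCl ℓ)) with hq'
  have hCB' : C' * B' = 1 := by
    rw [hC', hB', ← Matrix.map_mul, hCB, Matrix.map_one _ (map_zero _) (map_one _)]
  have hMB : M * B' = B' * M' := R_intertwine χ ρ A B (hAB _)
  have horth : Mᵀ * q' * M = q' := R_orth χ ρ (h.similitude _)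
  have hiso' : B'ᵀ * q' * B' = 0 := by
    rw [hB', hq', ← Matrix.transpose_map, ← Matrix.map_mul, ← Matrix.map_mul, hiso,
      Matrix.map_zero _ (map_zero _)]
  have hqdet : IsUnit q' := by
    rw [Matrix.isUnit_iff_isUnit_det, hq', ← RingHom.mapMatrix_apply, ← RingHom.map_det,
      isUnit_iff_ne_zero]
    exact (_root_.map_ne_zero _).2 h.nondeg
  have hdvd := charpoly_dvd M M' B' C' hCB' hMB
  have hroot : ∀ γ, M'.charpoly.IsRoot γ → M.charpoly.IsRoot γ := fun γ hγ => hγ.dvd hdvd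
  have hsep := fro h hpS hv hσ hord hnear β (hroot β hβ) hβ1
  have hβ0 : β ≠ 0 := by
    obtain ⟨T, φ, hφ, hT, -⟩ := hsep.indep
    exact hφ.ne β (hT β (hroot β hβ))
  have hβi1 : β⁻¹ ≠ 1 := by
    intro h'
    apply hβ1
    rw [← inv_inv β, h', inv_one]
  have hsep' := fro h hpS hv hσ hord hnear β⁻¹ hsep.inv hβi1
  -- the inverse is not an eigenvalue of the subrepresentation
  have hninv : ¬ M'.charpoly.IsRoot β⁻¹ := by
    intro hβ'
    obtain ⟨x, hx0, hx⟩ := exists_eigenvector hβ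
    obtain ⟨y, hy0, hy⟩ := exists_eigenvector hβ'
    have hx1 : M *ᵥ (B' *ᵥ x) = β • (B' *ᵥ x) := by
      rw [Matrix.mulVec_mulVec, hMB, ← Matrix.mulVec_mulVec, hx, Matrix.mulVec_smul]
    have hy1 : M *ᵥ (B' *ᵥ y) = β⁻¹ • (B' *ᵥ y) := by
      rw [Matrix.mulVec_mulVec, hMB, ← Matrix.mulVec_mulVec, hy, Matrix.mulVec_smul]
    have hBinj : ∀ z, B' *ᵥ z = 0 → z = 0 := by
      intro z hz
      have h1 : C' *ᵥ (B' *ᵥ z) = 0 := by rw [hz, Matrix.mulVec_zero]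
      rwa [Matrix.mulVec_mulVec, hCB', Matrix.one_mulVec] at h1
    have hy2 : B' *ᵥ y ≠ 0 := fun h' => hy0 (hBinj _ h')
    have hx2 : (B' *ᵥ x) ᵥ* q' ≠ 0 := by
      intro h'
      apply hx0
      apply hBinj
      have hinj := Matrix.vecMul_injective_of_isUnit hqdet
      exact hinj (by
        show (B' *ᵥ x) ᵥ* q' = 0 ᵥ* q'
        rw [h', Matrix.zero_vecMul])
    have hx3 : ((B' *ᵥ x) ᵥ* q') ᵥ* M = β⁻¹ • ((B' *ᵥ x) ᵥ* q') := by
      have h1 : (M *ᵥ (B' *ᵥ x)) ᵥ* (q' * M) = (B' *ᵥ x) ᵥ* q' := by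
        conv_rhs => rw [← horth]
        rw [Matrix.mul_assoc, ← Matrix.vecMul_vecMul (B' *ᵥ x) Mᵀ, Matrix.vecMul_transpose]
      rw [hx1, Matrix.smul_vecMul, ← Matrix.vecMul_vecMul] at h1
      conv_rhs => rw [← h1]
      rw [smul_smul, inv_mul_cancel₀ hβ0, one_smul]
    refine left_right hsep'.simple hy2 hy1 hx2 hx3 ?_
    have h1 : ((B' *ᵥ x) ᵥ* q') ⬝ᵥ (B' *ᵥ y) = x ⬝ᵥ ((B'ᵀ * q' * B') *ᵥ y) := by
      rw [← Matrix.mulVec_mulVec, ← Matrix.mulVec_mulVec, Matrix.dotProduct_mulVec x B'ᵀ,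
        Matrix.vecMul_transpose, ← Matrix.dotProduct_mulVec]
    rw [h1, hiso', Matrix.zero_mulVec, dotProduct_zero]
  -- the additive function
  obtain ⟨T, φ, hφ, hT, hφβ, hφ0⟩ := hsep.indep
  have hT' : ∀ γ ∈ M'.charpoly.roots, T γ := fun γ hγ => hT γ (hroot γ (isRoot_of_mem_roots hγ))
  obtain ⟨h1, h2⟩ := hφ.multiset_prod M'.charpoly.roots hT'
  have h3 : φ (M'.charpoly.roots.prod) = 0 := by
    rw [Matrix.det_eq_prod_roots_charpoly] at hdet
    have h4 := (hφ.pow _ h1 N).2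
    rw [hdet, hφ.map_one] at h4
    have h5 : (N : ℝ) ≠ 0 := Nat.cast_ne_zero.2 hN.ne'
    exact ((mul_eq_zero.1 h4.symm).resolve_left h5)
  have h4 : (M'.charpoly.roots.map φ).sum = (M'.charpoly.roots.map fun γ => if γ = β then (1 : ℝ) else 0).sum := by
    congr 1
    apply Multiset.map_congr rfl
    intro γ hγ
    have hγ' := isRoot_of_mem_roots hγ
    by_cases e : γ = β
    · rw [if_pos e, e, hφβ]
    · rw [if_neg e]
      refine hφ0 γ (hroot γ hγ') e ?_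
      rintro rfl
      exact hninv hγ'
  have h5 : 0 < (M'.charpoly.roots.map fun γ => if γ = β then (1 : ℝ) else 0).sum := by
    have hmem : β ∈ M'.charpoly.roots := (mem_roots (Matrix.charpoly_monic _).ne_zero).2 hβ
    obtain ⟨r, hr⟩ := Multiset.exists_cons_of_mem hmem
    rw [hr, Multiset.map_cons, Multiset.sum_cons, if_pos rfl]
    have h6 : 0 ≤ (r.map fun γ => if γ = β then (1 : ℝ) else 0).sum := by
      apply Multiset.sum_nonneg
      intro x hx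
      obtain ⟨γ, -, rfl⟩ := Multiset.mem_map.1 hx
      split_ifs
      · exact zero_le_one
      · exact le_rfl
    linarith
  rw [← h4, ← h2, h3] at h5
  exact lt_irrefl _ h5

/-- an open subgroup acts by unipotent matrices (after the twist) on an isotropic subrepresentation -/
theorem iso_open (h : IsK3Type q S χ Pol ρ) (A : GK ℚ →* Matrix m m ℚ_[ℓ]) (hAc : Continuous A)
    (B : Matrix n m ℚ_[ℓ]) (C : Matrix m n ℚ_[ℓ]) (hCB : C * B = 1)
    (hAB : ∀ g, ρ g * B = B * A g) (hiso : Bᵀ * q * B = 0) :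
    ∃ U : Subgroup (GK ℚ), IsOpen (U : Set (GK ℚ)) ∧ ∀ g ∈ U, IsNilpotent (tw χ A g - 1) := by
  classical
  by_cases hNU : NonUnip χ ρ
  · have hnb : ∃ U : Subgroup (GK ℚ), IsOpen (U : Set (GK ℚ)) ∧ (U : Set (GK ℚ)) ⊆ Near χ ρ := by
      have hr := small_pos ℓ
      have hVo : IsOpen ((⋂ i, ⋂ j, {g : GK ℚ | ‖(ρ g - 1) i j‖ < ((ℓ : ℝ) ^ 2)⁻¹}) ∩
          {g : GK ℚ | ‖χ g - 1‖ < ((ℓ : ℝ) ^ 2)⁻¹}) := by
        refine IsOpen.inter ?_ ?_
        · refine isOpen_iInter_of_finite fun i => isOpen_iInter_of_finite fun j => ?_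
          refine isOpen_lt ?_ continuous_const
          exact (((h.continuous.1.sub continuous_const).matrix_elem i j)).norm
        · exact isOpen_lt ((h.continuous.2.sub continuous_const).norm) continuous_const
      obtain ⟨W, hW⟩ := ProfiniteGrp.exist_openNormalSubgroup_sub_open_nhds_of_one (G := GK ℚ) hVo
        (by
          refine ⟨?_, ?_⟩
          · simp only [Set.mem_iInter, Set.mem_ofPred_eq]
            intro i j
            rw [map_one, sub_self, Matrix.zero_apply, norm_zero]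
            exact hr
          · simp only [Set.mem_ofPred_eq]
            rw [map_one, sub_self, norm_zero]
            exact hr)
      refine ⟨W.toSubgroup, W.isOpen', fun g hg => ?_⟩
      obtain ⟨h1, h2⟩ := hW hg
      simp only [Set.mem_iInter, Set.mem_ofPred_eq] at h1 h2
      exact ⟨fun i j => (h1 i j).le, h2.le⟩
    obtain ⟨U, hUo, hUN⟩ := hnb
    refine ⟨U, hUo, ?_⟩
    by_contra hcon
    push Not at hcon
    obtain ⟨g₀, hg₀, hnil⟩ := hcon
    have htwc : Continuous fun g => tw χ A g := by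
      have h1 : Continuous fun g => (χ g)⁻¹ := h.continuous.2.inv₀ fun g => chi_ne χ g
      exact h1.smul hAc
    have hVo : IsOpen ((U : Set (GK ℚ)) ∩ {g | (tw χ A g - 1) ^ Fintype.card m ≠ 0}) := by
      refine hUo.inter ?_
      have h2 : Continuous fun g => (tw χ A g - 1) ^ Fintype.card m :=
        (htwc.sub continuous_const).pow _
      exact (isClosed_singleton (x := (0 : Matrix m m ℚ_[ℓ]))).isOpen_compl.preimage h2
    have hVne : ((U : Set (GK ℚ)) ∩ {g | (tw χ A g - 1) ^ Fintype.card m ≠ 0}).Nonempty := by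
      refine ⟨g₀, hg₀, fun h' => hnil ⟨_, h'⟩⟩
    obtain ⟨N, a, hN, hNa⟩ := det_char h A hAc B C hCB hAB
    obtain ⟨p, hp, hpS, v, hv, ⟨σ, hσ, hσV⟩, hord⟩ := t_ORD t_NR1 t_DG1 ℚ ℓ n (insert ℓ S) χ ρ Pol
      h.continuous.2 h.continuous.1 (by have := h.card; omega)
      (fun p hp hpS v hv => by
        have : Fact p.Prime := ⟨hp⟩
        have hpS' : p ∉ S := fun h' => hpS (Finset.mem_insert_of_mem h')
        exact ⟨(h.weil p hpS' v hv).1, (h.weil p hpS' v hv).2, h.frobenius p hpS' v hv⟩)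
      hNU _ hVo hVne (fun g hg => hUN hg.1)
    have : Fact p.Prime := ⟨hp⟩
    have hpS' : p ∉ S := fun h' => hpS (Finset.mem_insert_of_mem h')
    have hpℓ : p ≠ ℓ := fun h' => hpS (h' ▸ Finset.mem_insert_self _ _)
    have hdet := det_root h A B C hCB hAB N a p hpS' v hv σ hσ (hNa p hpℓ v hv σ hσ)
    have h1 := iso_ord h A B C hCB hAB hiso N hN p hpS' v hv σ hσ hord (hUN hσV.1) hdet
    exact hσV.2 (unip_base χ A h1).1
  · unfold NonUnip at hNU
    push Not at hNU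
    obtain ⟨W, hWo, hW⟩ := hNU
    refine ⟨W, hWo, fun g hg => ?_⟩
    obtain ⟨k, hk⟩ := hW g hg
    refine ⟨k, ?_⟩
    have h1 : ∀ j : ℕ, (ρ g - χ g • (1 : Matrix n n ℚ_[ℓ])) ^ j * B =
        B * (A g - χ g • (1 : Matrix m m ℚ_[ℓ])) ^ j := by
      intro j
      induction j with
      | zero => rw [pow_zero, pow_zero, Matrix.one_mul, Matrix.mul_one]
      | succ j ih =>
        have h0 : (ρ g - χ g • (1 : Matrix n n ℚ_[ℓ])) * B =
            B * (A g - χ g • (1 : Matrix m m ℚ_[ℓ])) := by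
          rw [Matrix.sub_mul, hAB g, Matrix.smul_mul, Matrix.one_mul, Matrix.mul_sub,
            Matrix.mul_smul, Matrix.mul_one]
        rw [pow_succ, pow_succ, Matrix.mul_assoc, h0, ← Matrix.mul_assoc, ih, Matrix.mul_assoc]
    have h2 := h1 k
    rw [hk, Matrix.zero_mul] at h2
    have h3 : (A g - χ g • (1 : Matrix m m ℚ_[ℓ])) ^ k = 0 := by
      have h4 : C * (B * (A g - χ g • (1 : Matrix m m ℚ_[ℓ])) ^ k) = 0 := by
        rw [← h2, Matrix.mul_zero]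
      rwa [← Matrix.mul_assoc, hCB, Matrix.one_mul] at h4
    have e1 : tw χ A g - 1 = (χ g)⁻¹ • (A g - χ g • (1 : Matrix m m ℚ_[ℓ])) := by
      rw [tw_apply, smul_sub, smul_smul, inv_mul_cancel₀ (chi_ne χ g), one_smul]
    rw [e1, _root_.smul_pow, h3, smul_zero]

end

end Pool.Agent.H851.K3
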