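import Pool.Graph.R_pool_sql_team_seeded_3dad9d7b.NH66.HY.Nwt
import Pool.Graph.R_pool_sql_team_seeded_3dad9d7b.NH56.HY.Ari

/-!
# The Newton polygon of a polynomial of K3 type at an ordinary place
-/

set_option autoImplicit false

namespace Pool.Agent.H851.K3

open Pool.Agent.NH56.HY Pool.Agent.NH66.HY.Nwt Polynomial

/-- the combinatorial part -/
theorem comb' {b : ℕ} {N : Multiset ℝ}
    (hL : LiesAbove N (0 ::ₘ 2 ::ₘ Multiset.replicate (b - 2) 1))
    (hN : N.map (fun x => 2 - x) = N) (h0 : 0 ∈ N) :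
    N = 0 ::ₘ 2 ::ₘ Multiset.replicate (b - 2) 1 := by
  obtain ⟨N', rfl⟩ := Multiset.exists_cons_of_mem h0
  have h2 : (2 : ℝ) ∈ N' := by
    have : (2 : ℝ) ∈ (0 ::ₘ N') := by
      rw [← hN, Multiset.map_cons]
      simp
    simpa using this
  obtain ⟨M, rfl⟩ := Multiset.exists_cons_of_mem h2
  have hM : M.map (fun x => 2 - x) = M := by
    rw [Multiset.map_cons, Multiset.map_cons, sub_zero, sub_self,
      Multiset.cons_swap (2 : ℝ) 0] at hN
    exact (Multiset.cons_inj_right _).1 ((Multiset.cons_inj_right _).1 hN)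
  have h1 : ∀ x ∈ M, 1 ≤ x := by
    intro x hx
    have hle : ({0, x} : Multiset ℝ) ≤ 0 ::ₘ 2 ::ₘ M := by
      rw [Multiset.insert_eq_cons]
      apply Multiset.cons_le_cons
      rw [Multiset.singleton_le]
      exact Multiset.mem_cons_of_mem hx
    obtain ⟨t, ht, htc, hts⟩ := hL.2.2 _ hle
    have := sum_two ht (by rw [htc]; simp)
    simp at hts
    linarith
  have h1' : ∀ x ∈ M, x = 1 := by
    intro x hx
    have ha := h1 x hx
    have hb : (2 - x) ∈ M := by
      rw [← hM]
      exact Multiset.mem_map_of_mem _ hx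
    have hc := h1 _ hb
    linarith
  have hc : M.card = b - 2 := by
    have := hL.1
    simp at this
    omega
  rw [Multiset.eq_replicate_card.2 h1', hc]

/-- the Newton polygon at an ordinary place -/
theorem newton_eq {P : ℤ[X]} {p b : ℕ} [Fact p.Prime] (hb : 0 < b) (hP : P.Monic)
    (hdeg : P.natDegree = b) (hW : ∀ z : ℂ, aeval z P = 0 → ‖z‖ ^ 2 = (p : ℝ) ^ 2)
    (hL : LiesAbove (newton p P) (0 ::ₘ 2 ::ₘ Multiset.replicate (b - 2) 1))
    (hcoef : ¬ (p : ℤ) ∣ P.coeff (b - 1)) :
    newton p P = 0 ::ₘ 2 ::ₘ Multiset.replicate (b - 2) 1 := by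
  have hA := t_ARI
  have hp : (1 : ℝ) < p := by exact_mod_cast (Fact.out : p.Prime).one_lt
  have hp0 : (0 : ℝ) < p := by linarith
  -- embeddings
  obtain ⟨s⟩ := exists_hom ℚ ℂ
  obtain ⟨π⟩ := exists_hom ℚ (PadicAlgCl p)
  have h0 : ∀ z : ℂ, aeval z P = 0 → z ≠ 0 := by
    intro z hz h
    have := hW z hz
    rw [h, norm_zero] at this
    have h5 : (0 : ℝ) < (p : ℝ) ^ 2 := by positivity
    rw [← this] at h5
    norm_num at h5
  have hinv := roots_inv hA hW s h0
  set R0 := (P.map (Int.castRingHom (AlgebraicClosure ℚ))).roots with hR0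
  have hR := hA.1 P (PadicAlgCl p) π
  rw [← hR0] at hR
  set R := (P.map (Int.castRingHom (PadicAlgCl p))).roots with hRdef
  have hRinv : R.map (fun y => (p : PadicAlgCl p) ^ 2 / y) = R := by
    conv_rhs => rw [hR, ← hinv, Multiset.map_map]
    rw [hR, Multiset.map_map]
    apply Multiset.map_congr rfl
    intro a _
    simp [map_div₀]
  have hne : ∀ y ∈ R, y ≠ 0 := by
    intro y hy
    rw [hR] at hy
    obtain ⟨a, ha, rfl⟩ := Multiset.mem_map.1 hy
    have h1 : aeval (s a) P = 0 := by
      apply root_aeval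
      rw [hA.1 P ℂ s]
      exact Multiset.mem_map_of_mem _ ha
    have h3 := h0 _ h1
    intro h4
    apply h3
    rw [map_eq_zero] at h4
    rw [h4, map_zero]
  have hNdef : newton p P = R.map fun y => -Real.logb p ‖y‖ := rfl
  have hsym : (newton p P).map (fun x => 2 - x) = newton p P := by
    conv_rhs => rw [hNdef, ← hRinv, Multiset.map_map]
    rw [hNdef, Multiset.map_map]
    apply Multiset.map_congr rfl
    intro y hy
    have hy0 := hne y hy
    have hy1 : ‖y‖ ≠ 0 := norm_ne_zero_iff.2 hy0
    simp only [Function.comp]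
    rw [norm_div, norm_pow, norm_nat, Real.logb_div (by positivity) hy1, Real.logb_pow,
      Real.logb_inv, Real.logb_self_eq_one hp]
    push_cast
    ring
  have hpos : ∀ x ∈ newton p P, 0 ≤ x := by
    intro x hx
    obtain ⟨t, ht, htc, hts⟩ := hL.2.2 {x} (Multiset.singleton_le.2 hx)
    rw [Multiset.card_singleton] at htc
    obtain ⟨u, rfl⟩ := Multiset.card_eq_one.1 htc
    have hu : u ∈ (0 ::ₘ 2 ::ₘ Multiset.replicate (b - 2) (1 : ℝ)) :=
      Multiset.mem_of_le ht (by simp)
    have hu0 : 0 ≤ u := by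
      simp only [Multiset.mem_cons] at hu
      rcases hu with h | h | h
      · rw [h]
      · rw [h]; norm_num
      · rw [Multiset.eq_of_mem_replicate h]; norm_num
    simp at hts
    linarith
  have hzero : (0 : ℝ) ∈ newton p P := by
    by_contra hcon
    have hlt : ∀ y ∈ R, ‖y‖ < 1 := by
      intro y hy
      have hx : (-Real.logb p ‖y‖) ∈ newton p P := by
        rw [hNdef]
        exact Multiset.mem_map_of_mem (fun y => -Real.logb p ‖y‖) hy
      have h1 := hpos _ hx
      have h2 : -Real.logb p ‖y‖ ≠ 0 := fun h => hcon (h ▸ hx)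
      have h3 : Real.logb p ‖y‖ < 0 := by
        rcases lt_or_eq_of_le h1 with h | h
        · linarith
        · exact absurd h.symm h2
      have hy1 : 0 < ‖y‖ := norm_pos_iff.2 (hne y hy)
      by_contra h4
      push Not at h4
      have := Real.logb_nonneg hp h4
      linarith
    have hsum := norm_sum_lt R hlt
    apply hcoef
    apply dvd_of_norm_lt
    have hm : (P.map (Int.castRingHom (PadicAlgCl p))).Monic := hP.map _
    have hd : (P.map (Int.castRingHom (PadicAlgCl p))).natDegree = b := by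
      rw [hP.natDegree_map, hdeg]
    have hnext := (IsAlgClosed.splits
      (P.map (Int.castRingHom (PadicAlgCl p)))).nextCoeff_eq_neg_sum_roots_of_monic hm
    rw [nextCoeff_of_natDegree_pos (by omega), hd, coeff_map] at hnext
    have h6 : ((P.coeff (b - 1) : ℤ) : PadicAlgCl p) = -R.sum := by
      rw [hRdef, ← hnext]
      simp
    rw [h6, norm_neg]
    exact hsum
  exact comb' hL hsym hzero

/-- in a multiset `0, 2, 1, …, 1` of values of a function `f` the values different from `1` are taken
only once -/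
theorem inj_of_slopes {A : Type} [DecidableEq A] {R : Multiset A} {f : A → ℝ} {m : ℕ}
    (h : R.map f = 0 ::ₘ 2 ::ₘ Multiset.replicate m 1) :
    (∀ a ∈ R, f a = 0 ∨ f a = 2 ∨ f a = 1) ∧
    (∀ a ∈ R, f a ≠ 1 → R.count a = 1) ∧
    (∀ a ∈ R, ∀ b ∈ R, f a ≠ 1 → f a = f b → a = b) := by
  have h1 : ∀ a ∈ R, f a = 0 ∨ f a = 2 ∨ f a = 1 := by
    intro a ha
    have h2 : f a ∈ R.map f := Multiset.mem_map_of_mem f ha
    rw [h] at h2
    simp only [Multiset.mem_cons] at h2
    rcases h2 with h2 | h2 | h2
    · exact Or.inl h2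
    · exact Or.inr (Or.inl h2)
    · exact Or.inr (Or.inr (Multiset.eq_of_mem_replicate h2))
  have hcount : ∀ x : ℝ, x ≠ 1 → (R.map f).count x ≤ 1 := by
    intro x hx
    rw [h]
    by_cases h0 : x = 0
    · subst h0
      rw [Multiset.count_cons_self, Multiset.count_cons_of_ne (by norm_num),
        Multiset.count_replicate, if_neg (by norm_num)]
    · rw [Multiset.count_cons_of_ne h0]
      by_cases h2 : x = 2
      · subst h2
        rw [Multiset.count_cons_self, Multiset.count_replicate, if_neg (by norm_num)]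
      · rw [Multiset.count_cons_of_ne h2, Multiset.count_replicate, if_neg (fun h => hx h.symm)]
        exact Nat.zero_le _
  refine ⟨h1, ?_, ?_⟩
  · intro a ha hfa
    have h3 : R.count a ≤ (R.map f).count (f a) := by
      rw [Multiset.le_count_iff_replicate_le, ← Multiset.map_replicate]
      exact Multiset.map_le_map (Multiset.le_count_iff_replicate_le.1 le_rfl)
    have h4 := hcount _ hfa
    have h5 := Multiset.one_le_count_iff_mem.2 ha
    omega
  · intro a ha b hb hfa hab
    by_contra hne
    obtain ⟨R', rfl⟩ := Multiset.exists_cons_of_mem ha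
    have hb' : b ∈ R' := by
      rcases Multiset.mem_cons.1 hb with h | h
      · exact absurd h.symm hne
      · exact h
    obtain ⟨R'', rfl⟩ := Multiset.exists_cons_of_mem hb'
    have h4 := hcount _ hfa
    rw [Multiset.map_cons, Multiset.map_cons, ← hab, Multiset.count_cons_self,
      Multiset.count_cons_self] at h4
    omega

end Pool.Agent.H851.K3
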