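import Pool.Agent.H851.K3.Defs
import Pool.Agent.H851.K3.Nwt
import Pool.Graph.R_pool_sql_team_seeded_3dad9d7b.NH56.HY.Ord
import Pool.Graph.R_pool_sql_team_seeded_3dad9d7b.NH56.HY.Kro
import Pool.Graph.R_pool_sql_team_seeded_3dad9d7b.NH56.HY.Nr1
import Pool.Graph.R_pool_sql_team_seeded_3dad9d7b.NH56.HY.Dg1

/-!
# Eigenvalues of an ordinary Frobenius element of K3 type
-/

set_option autoImplicit false

namespace Pool.Agent.H851.K3

open Matrix Polynomial Filter Topology NumberField IsDedekindDomain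
open Pool.Agent.NH56.HY

/-- additive functions on a multiplicative group of numbers -/
structure AddOn {F : Type} [Field F] (A : F → Prop) (φ : F → ℝ) : Prop where
  one : A 1
  mul : ∀ x y, A x → A y → A (x * y)
  inv : ∀ x, A x → A x⁻¹
  ne : ∀ x, A x → x ≠ 0
  map : ∀ x y, A x → A y → φ (x * y) = φ x + φ y

namespace AddOn

variable {F : Type} [Field F] {A : F → Prop} {φ : F → ℝ} (h : AddOn A φ)

include h

theorem map_one : φ 1 = 0 := by
  have := h.map 1 1 h.one h.one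
  rw [mul_one] at this
  linarith

theorem map_inv (x : F) (hx : A x) : φ x⁻¹ = - φ x := by
  have := h.map x x⁻¹ hx (h.inv x hx)
  rw [mul_inv_cancel₀ (h.ne x hx), h.map_one] at this
  linarith

theorem multiset_prod (s : Multiset F) (hs : ∀ x ∈ s, A x) : A s.prod ∧ φ s.prod = (s.map φ).sum := by
  induction s using Multiset.induction_on with
  | empty => simpa using ⟨h.one, h.map_one⟩
  | cons a s ih =>
    obtain ⟨h1, h2⟩ := ih fun x hx => hs x (Multiset.mem_cons_of_mem hx)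
    have h3 := hs a (Multiset.mem_cons_self a s)
    rw [Multiset.prod_cons, Multiset.map_cons, Multiset.sum_cons, h.map _ _ h3 h1, h2]
    exact ⟨h.mul _ _ h3 h1, rfl⟩

theorem pow (x : F) (hx : A x) (k : ℕ) : A (x ^ k) ∧ φ (x ^ k) = k * φ x := by
  induction k with
  | zero => simpa using ⟨h.one, h.map_one⟩
  | succ k ih =>
    obtain ⟨h1, h2⟩ := ih
    rw [pow_succ, h.map _ _ h1 hx, h2]
    refine ⟨h.mul _ _ h1 hx, ?_⟩
    push_cast
    ring

end AddOn

/-- `β` is a simple eigenvalue of `M`, and it is independent of the others, except of `β⁻¹`, which is an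
eigenvalue, too -/
structure Separated {F n : Type} [Field F] [Fintype n] [DecidableEq n] (M : Matrix n n F) (β : F) :
    Prop where
  simple : M.charpoly.rootMultiplicity β = 1
  inv : M.charpoly.IsRoot β⁻¹
  indep : ∃ (A : F → Prop) (φ : F → ℝ), AddOn A φ ∧ (∀ γ, M.charpoly.IsRoot γ → A γ) ∧ φ β = 1 ∧
    ∀ γ, M.charpoly.IsRoot γ → γ ≠ β → γ ≠ β⁻¹ → φ γ = 0

theorem charpoly_smul {F n : Type} [Field F] [Infinite F] [Fintype n] [DecidableEq n] (c : F)
    (A : Matrix n n F) : (c • A).charpoly = A.charpoly.scaleRoots c := by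
  have hd : (A.charpoly).natDegree = Fintype.card n := Matrix.charpoly_natDegree_eq_dim A
  by_cases hc : c = 0
  · subst hc
    rw [zero_smul, Matrix.charpoly_zero]
    refine Polynomial.ext fun k => ?_
    rw [coeff_X_pow, coeff_scaleRoots, hd]
    by_cases hk : k = Fintype.card n
    · subst hk
      rw [if_pos rfl, Nat.sub_self, pow_zero, mul_one, ← hd]
      exact (Matrix.charpoly_monic A).coeff_natDegree.symm
    · rw [if_neg hk]
      rcases lt_or_gt_of_ne hk with h | h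
      · rw [zero_pow (by omega), mul_zero]
      · rw [coeff_eq_zero_of_natDegree_lt (by rw [hd]; exact h), zero_mul]
  apply Polynomial.funext
  intro r
  have e1 : (A.charpoly.scaleRoots c).eval r = c ^ Fintype.card n * A.charpoly.eval (c⁻¹ * r) := by
    have h1 : r = c * (c⁻¹ * r) := by rw [← mul_assoc, mul_inv_cancel₀ hc, one_mul]
    conv_lhs => rw [h1]
    have h2 := Polynomial.scaleRoots_eval₂_mul (p := A.charpoly) (RingHom.id F) (c⁻¹ * r) c
    simp only [eval₂_id, RingHom.id_apply] at h2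
    rw [h2, hd]
  rw [e1, Matrix.eval_charpoly, Matrix.eval_charpoly, ← Matrix.det_smul]
  congr 1
  ext i j
  by_cases hij : i = j
  · subst hij
    simp
    field_simp
  · simp [hij]

section

variable {K : Type} [Field K] [NumberField K] {ℓ : ℕ} [Fact ℓ.Prime] {n : Type}
    [Fintype n] [DecidableEq n] {q : Matrix n n ℚ_[ℓ]} {S : Finset ℕ} {χ : GK K →* ℚ_[ℓ]}
    {Pol : HeightOneSpectrum (𝓞 K) → ℤ[X]} {ρ : GK K →* Matrix n n ℚ_[ℓ]}

theorem IsK3Type.card (h : IsK3Type q S χ Pol ρ) : 2 ≤ Fintype.card n := by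
  have hU : IsOpen (Set.univ : Set (GK K)) := isOpen_univ
  obtain ⟨p, hp, hpS, v, hv, σ, hσ, -⟩ := t_DG1 K Set.univ hU ⟨1, trivial⟩ S
  have : Fact p.Prime := ⟨hp⟩
  have h1 := (h.mazur p hpS v hv).1
  have h2 := (h.frobenius p hpS v hv σ hσ).2
  have h3 := (h.weil p hpS v hv).1
  have h4 : (newton p (Pol v)).card = Fintype.card n := by
    unfold newton
    rw [Multiset.card_map, ← (IsAlgClosed.splits _).natDegree_eq_card_roots, h3.natDegree_map,
      ← h3.natDegree_map (Int.castRingHom ℚ_[ℓ]), ← h2, Matrix.charpoly_natDegree_eq_dim]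
  rw [h4] at h1
  simp at h1
  omega

/-- the roots of the characteristic polynomial of the twisted Frobenius element -/
theorem roots_eq (h : IsK3Type q S χ Pol ρ) {p : ℕ} [Fact p.Prime] (hpS : p ∉ S)
    {v : HeightOneSpectrum (𝓞 K)} (hv : Ideal.absNorm v.asIdeal = p) {σ : GK K}
    (hσ : IsFrobenius v σ) (s : AlgebraicClosure ℚ →+* PadicAlgCl ℓ) :
    (R χ ρ σ⁻¹).charpoly.roots =
      ((Pol v).map (Int.castRingHom (AlgebraicClosure ℚ))).roots.map fun a => s (a / p) := by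
  obtain ⟨h1, h2⟩ := h.frobenius p hpS v hv σ hσ
  have hp : p.Prime := Fact.out
  have hp0 : ((p : PadicAlgCl ℓ))⁻¹ ≠ 0 := inv_ne_zero (Nat.cast_ne_zero.2 hp.ne_zero)
  have e1 : R χ ρ σ⁻¹ = ((p : PadicAlgCl ℓ))⁻¹ • (ρ σ⁻¹).map (algebraMap ℚ_[ℓ] (PadicAlgCl ℓ)) := by
    unfold R
    rw [tw_apply, h1]
    ext i j
    simp
  have hinf : Infinite (PadicAlgCl ℓ) := IsAlgClosed.instInfinite
  rw [e1, charpoly_smul, roots_scaleRoots _ (isUnit_iff_ne_zero.2 hp0), Matrix.charpoly_map, h2,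
    Polynomial.map_map]
  have e2 : (algebraMap ℚ_[ℓ] (PadicAlgCl ℓ)).comp (Int.castRingHom ℚ_[ℓ]) =
      Int.castRingHom (PadicAlgCl ℓ) := RingHom.ext_int _ _
  rw [e2, t_ARI.1 (Pol v) (PadicAlgCl ℓ) s, Multiset.map_map]
  refine Multiset.map_congr rfl fun a _ => ?_
  simp only [Function.comp]
  rw [map_div₀, map_natCast, div_eq_inv_mul]

open Classical in
/-- **Ordinary Frobenius elements**: the eigenvalues different from `1` (after the twist) are simple and
independent. -/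
theorem fro (h : IsK3Type q S χ Pol ρ) {p : ℕ} [hpf : Fact p.Prime] (hpS : p ∉ S)
    {v : HeightOneSpectrum (𝓞 K)} (hv : Ideal.absNorm v.asIdeal = p) {σ : GK K}
    (hσ : IsFrobenius v σ) (hord : ¬ (p : ℤ) ∣ (Pol v).coeff (Fintype.card n - 1))
    (hnear : σ⁻¹ ∈ Near χ ρ) (β : PadicAlgCl ℓ) (hβ : (R χ ρ σ⁻¹).charpoly.IsRoot β) (hβ1 : β ≠ 1) :
    Separated (R χ ρ σ⁻¹) β := by
  have hc := h.card
  have hp1 : (1 : ℝ) < p := by exact_mod_cast hpf.out.one_lt
  obtain ⟨s⟩ := Pool.Agent.NH66.HY.Nwt.exists_hom ℚ (PadicAlgCl ℓ)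
  obtain ⟨c⟩ := Pool.Agent.NH66.HY.Nwt.exists_hom ℚ ℂ
  obtain ⟨hmon, hweil⟩ := h.weil p hpS v hv
  have hcp := (h.frobenius p hpS v hv σ hσ).2
  have hdeg : (Pol v).natDegree = Fintype.card n := by
    rw [← hmon.natDegree_map (Int.castRingHom ℚ_[ℓ]), ← hcp, Matrix.charpoly_natDegree_eq_dim]
  have hnw := newton_eq (by omega) hmon hdeg hweil (h.mazur p hpS v hv) hord
  have hroots := roots_eq h hpS hv hσ s
  have hne0 : ∀ z : ℂ, aeval z (Pol v) = 0 → z ≠ 0 := by
    intro z hz h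
    have := hweil z hz
    rw [h, norm_zero] at this
    have h5 : (0 : ℝ) < (p : ℝ) ^ 2 := by positivity
    rw [← this] at h5
    norm_num at h5
  have hinv := Pool.Agent.NH66.HY.Nwt.roots_inv t_ARI hweil c hne0
  set R0 := ((Pol v).map (Int.castRingHom (AlgebraicClosure ℚ))).roots with hR0
  have hmM : (R χ ρ σ⁻¹).charpoly ≠ 0 := (Matrix.charpoly_monic _).ne_zero
  have hroot : ∀ γ, (R χ ρ σ⁻¹).charpoly.IsRoot γ ↔ ∃ a ∈ R0, s (a / p) = γ := by
    intro γ
    rw [← mem_roots hmM, hroots, Multiset.mem_map]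
  have hp0 : (p : AlgebraicClosure ℚ) ≠ 0 := Nat.cast_ne_zero.2 hpf.out.ne_zero
  have hR0a : ∀ a ∈ R0, aeval a (Pol v) = 0 := by
    intro a ha
    have h2 := isRoot_of_mem_roots ha
    rw [IsRoot.def, eval_map] at h2
    rw [aeval_def, Subsingleton.elim (algebraMap ℤ (AlgebraicClosure ℚ)) (Int.castRingHom _)]
    exact h2
  have hari := fun a ha => t_ARI.2 (Pol v) p 2 hmon hweil a (hR0a a ha)
  obtain ⟨a₀, ha₀, hβ'⟩ := (hroot β).1 hβ
  -- a place where the slope is not one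
  obtain ⟨π, hπ⟩ : ∃ π : AlgebraicClosure ℚ →+* PadicAlgCl p, -Real.logb p ‖π a₀‖ ≠ 1 := by
    by_contra hcon
    push Not at hcon
    obtain ⟨b1, b2, b3⟩ := hari a₀ ha₀
    have hk : ∃ k : ℕ, 0 < k ∧ (a₀ / p) ^ k = 1 := by
      refine t_KRO (a₀ / p) (fun τ => ?_) (fun p' hp' π => ?_)
      · have h1 : ‖τ (a₀ / p)‖ ^ 2 = 1 := by
          rw [map_div₀, norm_div, div_pow, b2 τ, map_natCast, Complex.norm_natCast]
          exact div_self (by positivity)
        exact (pow_eq_one_iff_of_nonneg (norm_nonneg _) two_ne_zero).1 h1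
      · by_cases hpe : p' = p
        · subst hpe
          have h1 := hcon π
          have h2 : ‖π a₀‖ ≠ 0 := norm_ne_zero_iff.2 ((map_ne_zero π).2 b1)
          have h3 : (0 : ℝ) < ‖π a₀‖ := lt_of_le_of_ne (norm_nonneg _) (Ne.symm h2)
          have h4 : ‖π a₀‖ = (p' : ℝ)⁻¹ := by
            have h5 : Real.logb p' ‖π a₀‖ = -1 := by linarith
            have h6 := Real.rpow_logb (by linarith) hp1.ne' h3
            rw [h5, Real.rpow_neg_one] at h6
            exact h6.symm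
          rw [map_div₀, norm_div, h4, map_natCast, Pool.Agent.NH66.HY.Nwt.norm_nat]
          exact div_self (inv_ne_zero (by positivity))
        · have h1 : (p.Coprime p') := (Nat.coprime_primes hpf.out hp'.out).2 (Ne.symm hpe)
          rw [map_div₀, norm_div, b3 p' π hpe, map_natCast, Ari.nat_eq p' p h1, div_one]
    obtain ⟨k, hk0, hk⟩ := hk
    apply hβ1
    refine (t_NR1 ℓ).1 β (R_near χ ρ t_NR1 hnear β hβ) k hk0 ?_
    rw [← hβ', ← map_pow, hk, map_one]
  -- the slopes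
  set f : AlgebraicClosure ℚ → ℝ := fun a => -Real.logb p ‖π a‖ with hf
  have hslopes : R0.map f = 0 ::ₘ 2 ::ₘ Multiset.replicate (Fintype.card n - 2) 1 := by
    rw [← hnw]
    unfold newton
    rw [t_ARI.1 (Pol v) (PadicAlgCl p) π, Multiset.map_map]
    rfl
  obtain ⟨s1, s2, s3⟩ := inj_of_slopes hslopes
  have hnp : ‖(p : PadicAlgCl p)‖ = (p : ℝ)⁻¹ := Pool.Agent.NH66.HY.Nwt.norm_nat p
  -- the inverse
  have hinv0 : (p : AlgebraicClosure ℚ) ^ 2 / a₀ ∈ R0 := by
    rw [← hinv]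
    exact Multiset.mem_map_of_mem (fun a => (p : AlgebraicClosure ℚ) ^ 2 / a) ha₀
  have ha₀0 : a₀ ≠ 0 := (hari a₀ ha₀).1
  have hfinv : f ((p : AlgebraicClosure ℚ) ^ 2 / a₀) = 2 - f a₀ := by
    simp only [hf]
    have h2 : ‖π a₀‖ ≠ 0 := norm_ne_zero_iff.2 ((map_ne_zero π).2 ha₀0)
    rw [map_div₀, norm_div, map_pow, map_natCast, norm_pow, hnp,
      Real.logb_div (by positivity) h2, Real.logb_pow,
      Real.logb_inv, Real.logb_self_eq_one hp1]
    push_cast
    ring
  have hβinv : s ((p : AlgebraicClosure ℚ) ^ 2 / a₀ / p) = β⁻¹ := by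
    rw [← hβ', ← map_inv₀]
    congr 1
    field_simp
  refine ⟨?_, ?_, ?_⟩
  · rw [← count_roots, hroots, ← hβ',
      Multiset.count_map_eq_count' (fun a => s (a / p)) _ ?_ a₀]
    · exact s2 a₀ ha₀ hπ
    · intro a b hab
      have h1 := s.injective hab
      field_simp at h1
      exact h1
  · exact (hroot _).2 ⟨_, hinv0, hβinv⟩
  · -- the additive function
    let A : PadicAlgCl ℓ → Prop := fun x => ∃ t, t ≠ 0 ∧ s t = x
    let ψ : PadicAlgCl ℓ → ℝ := fun x => if hx : ∃ t, s t = x then Real.logb p ‖π hx.choose‖ else 0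
    have hψ : ∀ t, ψ (s t) = Real.logb p ‖π t‖ := by
      intro t
      have hx : ∃ t', s t' = s t := ⟨t, rfl⟩
      have e : ψ (s t) = Real.logb p ‖π hx.choose‖ := dif_pos hx
      rw [e, s.injective hx.choose_spec]
    have hAψ : ∀ c : ℝ, AddOn A fun x => c * ψ x := by
      intro c
      refine ⟨⟨1, one_ne_zero, map_one s⟩, ?_, ?_, ?_, ?_⟩
      · rintro _ _ ⟨t, ht, rfl⟩ ⟨u, hu, rfl⟩
        exact ⟨t * u, mul_ne_zero ht hu, map_mul s t u⟩
      · rintro _ ⟨t, ht, rfl⟩
        exact ⟨t⁻¹, inv_ne_zero ht, map_inv₀ s t⟩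
      · rintro _ ⟨t, ht, rfl⟩
        exact (map_ne_zero s).2 ht
      · rintro _ _ ⟨t, ht, rfl⟩ ⟨u, hu, rfl⟩
        rw [← map_mul, hψ, hψ, hψ, map_mul, norm_mul,
          Real.logb_mul (norm_ne_zero_iff.2 ((map_ne_zero π).2 ht))
            (norm_ne_zero_iff.2 ((map_ne_zero π).2 hu))]
        ring
    have hψr : ∀ a ∈ R0, ψ (s (a / p)) = 1 - f a := by
      intro a ha
      have h2 : ‖π a‖ ≠ 0 := norm_ne_zero_iff.2 ((map_ne_zero π).2 (hari a ha).1)
      simp only [hf]
      rw [hψ, map_div₀, norm_div, map_natCast, hnp, Real.logb_div h2 (by positivity), Real.logb_inv,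
        Real.logb_self_eq_one hp1]
      ring
    refine ⟨A, fun x => (1 - f a₀)⁻¹ * ψ x, hAψ _, ?_, ?_, ?_⟩
    · intro γ hγ
      obtain ⟨a, ha, rfl⟩ := (hroot γ).1 hγ
      exact ⟨a / p, div_ne_zero (hari a ha).1 hp0, rfl⟩
    · simp only
      rw [← hβ', hψr a₀ ha₀]
      exact inv_mul_cancel₀ (sub_ne_zero.2 (Ne.symm hπ))
    · intro γ hγ h1 h2
      obtain ⟨a, ha, rfl⟩ := (hroot γ).1 hγ
      simp only
      rw [hψr a ha]
      by_cases hfa : f a = 1
      · rw [hfa, sub_self, mul_zero]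
      · exfalso
        have h3 : f a = f a₀ ∨ f a = 2 - f a₀ := by
          rcases s1 a ha with e1 | e1 | e1 <;> rcases s1 a₀ ha₀ with e2 | e2 | e2
          · left; rw [e1, e2]
          · right; rw [e1, e2]; norm_num
          · exact absurd e2 hπ
          · right; rw [e1, e2]; norm_num
          · left; rw [e1, e2]
          · exact absurd e2 hπ
          · exact absurd e1 hfa
          · exact absurd e1 hfa
          · exact absurd e1 hfa
        rcases h3 with h3 | h3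
        · have h4 := s3 a ha a₀ ha₀ hfa h3
          exact h1 (by rw [h4, hβ'])
        · have h4 := s3 a ha _ hinv0 hfa (by rw [h3, hfinv])
          exact h2 (by rw [h4, hβinv])

end

end Pool.Agent.H851.K3
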