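import Pool.Agent.H851.K3.SS
import Pool.Graph.R_seed8.W571.FM.Frob

/-!
# Upper bound for the space of Tate classes from one Frobenius element; the case of equality
-/

set_option autoImplicit false

namespace Pool.Agent.H851.K3

open Matrix Polynomial Filter Topology NumberField IsDedekindDomain Module
open Pool.Agent.NH56.HY

section

variable {K : Type} [Field K] [NumberField K] {ℓ : ℕ} [hℓ : Fact ℓ.Prime] {n : Type}
    [Fintype n] [DecidableEq n] {q : Matrix n n ℚ_[ℓ]} {S : Finset ℕ} {χ : GK K →* ℚ_[ℓ]}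
    {Pol : HeightOneSpectrum (𝓞 K) → ℤ[X]} {ρ : GK K →* Matrix n n ℚ_[ℓ]}

theorem exists_frobenius (v : HeightOneSpectrum (𝓞 K)) : ∃ σ : GK K, IsFrobenius v σ := by
  obtain ⟨P, σ, h1, h2, h3⟩ := Pool.Agent.W571.FM.frob_cm v
  exact ⟨σ, P, h1, h2, h3⟩

open Classical in
/-- the multiplicity of the eigenvalue one of a power of a Frobenius element -/
theorem mult_le (h : IsK3Type q S χ Pol ρ) {p : ℕ} [hp : Fact p.Prime] (hpS : p ∉ S)
    {v : HeightOneSpectrum (𝓞 K)} (hv : Ideal.absNorm v.asIdeal = p) {σ : GK K}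
    (hσ : IsFrobenius v σ) {k : ℕ} (hk : 0 < k) :
    (tw χ ρ σ⁻¹ ^ k).charpoly.rootMultiplicity 1 ≤ rootsOfUnity p (Pol v) := by
  obtain ⟨s⟩ := Pool.Agent.NH66.HY.Nwt.exists_hom ℚ (PadicAlgCl ℓ)
  obtain ⟨τ⟩ := Pool.Agent.NH66.HY.Nwt.exists_hom ℚ ℂ
  have hp0 : (p : AlgebraicClosure ℚ) ≠ 0 := Nat.cast_ne_zero.2 hp.out.ne_zero
  rw [eq_rootMultiplicity_map (algebraMap ℚ_[ℓ] (PadicAlgCl ℓ)).injective, map_one,
    ← Matrix.charpoly_map]
  have e1 : (tw χ ρ σ⁻¹ ^ k).map (algebraMap ℚ_[ℓ] (PadicAlgCl ℓ)) = R χ ρ σ⁻¹ ^ k := by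
    unfold R
    rw [← map_pow (algebraMap ℚ_[ℓ] (PadicAlgCl ℓ)).mapMatrix]
    rfl
  rw [e1, OrdA.charpoly_pow _ hk.ne']
  have e2 : ((R χ ρ σ⁻¹).charpoly.roots.map fun a => X - C (a ^ k)) =
      (((R χ ρ σ⁻¹).charpoly.roots.map fun a => a ^ k).map fun a => X - C a) := by
    rw [Multiset.map_map]; rfl
  rw [e2, ← count_roots, roots_multiset_prod_X_sub_C, roots_eq h hpS hv hσ s, Multiset.map_map]
  unfold rootsOfUnity
  rw [t_ARI.1 (Pol v) ℂ τ, Multiset.filter_map, Multiset.card_map, Multiset.count_map]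
  apply Multiset.card_le_card
  apply Multiset.monotone_filter_right
  intro a ha
  simp only [Function.comp] at ha ⊢
  refine ⟨k, hk, ?_⟩
  have h1 : s ((a / p) ^ k) = s 1 := by rw [map_pow, ← ha, map_one]
  have h2 := s.injective h1
  rw [div_pow, div_eq_one_iff_eq (pow_ne_zero _ hp0)] at h2
  rw [← map_pow, h2, map_pow, map_natCast]

/-- the upper bound, and nondegeneracy in the case of equality -/
theorem num (h : IsK3Type q S χ Pol ρ) {p : ℕ} [hp : Fact p.Prime] (hpS : p ∉ S)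
    {v : HeightOneSpectrum (𝓞 K)} (hv : Ideal.absNorm v.asIdeal = p) :
    finrank ℚ_[ℓ] (tate χ ρ) ≤ rootsOfUnity p (Pol v) ∧
    (finrank ℚ_[ℓ] (tate χ ρ) = rootsOfUnity p (Pol v) →
      ∀ x, IsTate χ ρ x → (∀ y, IsTate χ ρ y → x ⬝ᵥ q *ᵥ y = 0) → x = 0) := by
  obtain ⟨σ, hσ⟩ := exists_frobenius v
  obtain ⟨U, hUo, hU⟩ := tate_open χ ρ
  have hfin : Finite (GK K ⧸ U) := Subgroup.quotient_finite_of_isOpen _ hUo
  obtain ⟨k, hk, -, hkU⟩ := Subgroup.exists_pow_mem_of_index_ne_zero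
    (H := U) Subgroup.index_ne_zero_of_finite σ⁻¹
  set M := tw χ ρ σ⁻¹ with hM
  have hfix : ∀ x ∈ tate χ ρ, M ^ k *ᵥ x = x := by
    intro x hx
    rw [hM, ← map_pow, tw_apply, Matrix.smul_mulVec, hU _ hkU x hx, smul_smul,
      inv_mul_cancel₀ (chi_ne χ _), one_smul]
  set f : Module.End ℚ_[ℓ] (n → ℚ_[ℓ]) := Matrix.toLin' (M ^ k) with hf
  set E := f.maxGenEigenspace 1 with hE
  have hle : tate χ ρ ≤ E := by
    intro x hx
    refine Module.End.mem_maxGenEigenspace f 1 x |>.2 ⟨1, ?_⟩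
    rw [pow_one, LinearMap.sub_apply, hf, Matrix.toLin'_apply, hfix x hx]
    simp
  have hdim : finrank ℚ_[ℓ] E ≤ rootsOfUnity p (Pol v) := by
    rw [hE, LinearMap.finrank_maxGenEigenspace_eq, hf, charpoly_lin]
    exact mult_le h hpS hv hσ hk
  refine ⟨(Submodule.finrank_mono hle).trans hdim, ?_⟩
  intro heq x hx hxy
  have hRE : tate χ ρ = E := Submodule.eq_of_le_of_finrank_le hle (by rw [heq]; exact hdim)
  -- the Fitting decomposition
  have horth : Mᵀ * q * M = q := by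
    rw [hM, tw_apply, Matrix.transpose_smul, Matrix.smul_mul, Matrix.smul_mul, Matrix.mul_smul,
      h.similitude, smul_smul, smul_smul]
    have := chi_ne χ σ⁻¹
    rw [show (χ σ⁻¹)⁻¹ * (χ σ⁻¹)⁻¹ * χ σ⁻¹ ^ 2 = 1 by field_simp, one_smul]
  have hk' : (M ^ k)ᵀ * q * M ^ k = q := by
    have : ∀ j : ℕ, (M ^ j)ᵀ * q * M ^ j = q := by
      intro j
      induction j with
      | zero => simp
      | succ j ih =>
        rw [pow_succ, Matrix.transpose_mul]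
        calc Mᵀ * (M ^ j)ᵀ * q * (M ^ j * M) = Mᵀ * ((M ^ j)ᵀ * q * M ^ j) * M := by
              simp only [Matrix.mul_assoc]
          _ = q := by rw [ih, horth]
    exact this k
  -- the form pairs `x` trivially with the image of a power of `M ^ k - 1`
  have hxk : M ^ k *ᵥ x = x := hfix x hx
  have h1 : ∀ y, x ⬝ᵥ q *ᵥ ((M ^ k - 1) *ᵥ y) = 0 := by
    intro y
    rw [Matrix.sub_mulVec, Matrix.mulVec_sub, dotProduct_sub, Matrix.one_mulVec]
    have h2 : (M ^ k *ᵥ x) ⬝ᵥ q *ᵥ (M ^ k *ᵥ y) = x ⬝ᵥ q *ᵥ y := by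
      have h3 : x ⬝ᵥ ((M ^ k)ᵀ * q * M ^ k) *ᵥ y = x ⬝ᵥ q *ᵥ y := by rw [hk']
      rw [← h3, ← Matrix.mulVec_mulVec, ← Matrix.mulVec_mulVec, Matrix.dotProduct_mulVec x (M ^ k)ᵀ,
        Matrix.vecMul_transpose]
    rw [hxk] at h2
    rw [h2, sub_self]
  have hfit := LinearMap.eventually_codisjoint_ker_pow_range_pow (f - 1)
  obtain ⟨N, hN⟩ := Filter.eventually_atTop.1 hfit
  have h2 : ∀ y : n → ℚ_[ℓ], x ⬝ᵥ q *ᵥ y = 0 := by
    intro y
    have hy : y ∈ LinearMap.ker ((f - 1) ^ (N + 1)) ⊔ LinearMap.range ((f - 1) ^ (N + 1)) := by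
      rw [(codisjoint_iff.1 (hN (N + 1) (by omega)))]
      trivial
    obtain ⟨a, ha, b, ⟨c, hc⟩, rfl⟩ := Submodule.mem_sup.1 hy
    have h3 : a ∈ tate χ ρ := by
      rw [hRE]
      refine Module.End.mem_maxGenEigenspace f 1 a |>.2 ⟨N + 1, ?_⟩
      have e : f - (1 : ℚ_[ℓ]) • (1 : Module.End ℚ_[ℓ] (n → ℚ_[ℓ])) = f - 1 := by rw [one_smul]
      rw [e]
      exact ha
    have h4 : x ⬝ᵥ q *ᵥ b = 0 := by
      rw [← hc, pow_succ', Module.End.mul_apply]
      have e : ∀ w, (f - 1) w = (M ^ k - 1) *ᵥ w := by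
        intro w
        rw [LinearMap.sub_apply, hf, Matrix.toLin'_apply, Matrix.sub_mulVec, Matrix.one_mulVec]
        rfl
      rw [e]
      exact h1 _
    rw [Matrix.mulVec_add, dotProduct_add, hxy a h3, h4, add_zero]
  have h3 : IsUnit q := (Matrix.isUnit_iff_isUnit_det q).2 (isUnit_iff_ne_zero.2 h.nondeg)
  have h4 : x ᵥ* q = 0 := by
    apply dotProduct_eq_zero
    intro y
    rw [← Matrix.dotProduct_mulVec]
    exact h2 y
  have h5 := Matrix.vecMul_injective_of_isUnit h3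
  exact h5 (by
    show x ᵥ* q = 0 ᵥ* q
    rw [h4, Matrix.zero_vecMul])

end

end Pool.Agent.H851.K3
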